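import Pool.Agent.H301.SY.ClsZ
import Pool.Agent.H301.SX.Model2

/-! From the limit `t^(1+2a)` to the level, short windows, real functions. -/

set_option autoImplicit false

namespace Pool.Agent.H301.SY

open Finset Filter Topology
open Pool.Agent.Y829 (V V_insert)
open Pool.Agent.N422.NW Pool.Agent.N422.LR Pool.Agent.N422.LG Pool.Agent.N422.SL Pool.Agent.N422.WS
open Pool.Agent.H301.SX (V_split VV_eq V_pos)

theorem gen2 : S_GEN2 := t_GEN2 t_JEN t_AV

theorem av : S_AV := t_AV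

theorem nx : S_NX := Pool.Agent.H301.SX.nx

theorem hxr : Pool.Agent.N422.LR.S_HX := t_HX Pool.Agent.H301.SV.wx

lemma PP_dvd {z y : ℕ} (h : z ≤ y) : PP z ∣ PP y := by
  unfold PP
  apply prod_dvd_prod_of_subset
  intro p hp
  rw [mem_filter, mem_Icc] at hp ⊢
  exact ⟨⟨hp.1.1, hp.1.2.trans h⟩, hp.2⟩

lemma per_mul {α : Type} {A : ℕ → α} {M : ℕ} (h : ∀ n, A (n + M) = A n) (k n : ℕ) : A (n + k * M) = A n := by
  induction k with
  | zero => simp
  | succ k ih => rw [Nat.succ_mul, ← Nat.add_assoc, h, ih]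

lemma per_dvd {α : Type} {A : ℕ → α} {M N : ℕ} (h : ∀ n, A (n + M) = A n) (hd : M ∣ N) (n : ℕ) : A (n + N) = A n := by
  obtain ⟨k, rfl⟩ := hd
  rw [Nat.mul_comm]
  exact per_mul h k n

lemma Sv_per (U y n : ℕ) : Sv U y (n + PP y) = Sv U y n := by
  rw [← FX_per U y (n + PP y), Nat.add_mod_right, FX_per]

lemma sdiff_PQ {y Q : ℕ} (h : y ≤ Q) : ∏ p ∈ ((Icc 1 Q).filter Nat.Prime) \ PQ Q y, p = PP y := by
  unfold PP
  congr 1
  ext p
  rw [Finset.mem_sdiff]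
  unfold PQ
  simp only [mem_filter, mem_Icc]
  constructor
  · rintro ⟨⟨⟨h1, h2⟩, h3⟩, h4⟩
    refine ⟨⟨h1, ?_⟩, h3⟩
    by_contra h5
    exact h4 ⟨⟨h1, h2⟩, h3, by omega⟩
  · rintro ⟨⟨h1, h2⟩, h3⟩
    exact ⟨⟨⟨h1, h2.trans h⟩, h3⟩, fun h4 => by omega⟩

lemma mP_nonneg (Q : ℕ) {F : ℕ → ℝ} (h : ∀ n, 0 ≤ F n) : 0 ≤ mP Q F :=
  div_nonneg (sum_nonneg fun n _ => h n) (Nat.cast_nonneg _)

lemma mP_add (Q : ℕ) (F G : ℕ → ℝ) : mP Q (fun n => F n + G n) = mP Q F + mP Q G := by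
  unfold mP
  rw [sum_add_distrib, add_div]

lemma mP_sub (Q : ℕ) (F G : ℕ → ℝ) : mP Q (fun n => F n - G n) = mP Q F - mP Q G := by
  unfold mP
  rw [sum_sub_distrib, sub_div]

lemma left_inter {y Q : ℕ} (h : y ≤ Q) (U n : ℕ) (A : Finset ℕ) :
    HX_left (PQ Q y) (A ∩ Sv U y n) n = A ∩ Sv U Q n := by
  ext a
  unfold HX_left Sv PQ
  simp only [mem_filter, mem_inter, mem_Icc]
  constructor
  · rintro ⟨⟨h1, h2, h3⟩, h4⟩
    refine ⟨h1, h2, fun p hp => ?_⟩
    by_cases h5 : p ≤ y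
    · exact h3 p ⟨⟨hp.1.1, h5⟩, hp.2⟩
    · exact h4 p ⟨hp.1, hp.2, by omega⟩
  · rintro ⟨h1, h2, h3⟩
    exact ⟨⟨h1, h2, fun p hp => h3 p ⟨⟨hp.1.1, hp.1.2.trans h⟩, hp.2⟩⟩, fun p hp => h3 p ⟨hp.1, hp.2.1⟩⟩

/-- from the limit `t^(1+2a)` to the level of the weight, short windows -/
theorem seqQz (a : ℝ) (ha : 0 < a) (ha1 : a ≤ 1 / 2) (ε : ℝ) (hε : 0 < ε) : ∃ B : ℝ, 0 < B ∧ ∀ᶠ t : ℝ in atTop, ∀ Q : ℕ,
    t / 1000 ≤ Real.log Q → Real.log Q ≤ t → ∀ U : ℕ, B * (t * Real.log t) ≤ U → (U : ℝ) ≤ t ^ (1 + a) →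
    ∀ (c : ℕ → ℕ → ℝ) (z : ℕ) (A : ℕ → Finset ℕ), z ≤ ⌈t ^ (1 + 2 * a)⌉₊ → (∀ n, A n ⊆ Icc 1 U) →
    (∀ n, A (n + PP z) = A n) → ⌈t ^ (1 + 2 * a)⌉₊ ≤ Q ∧
    |mP Q (fun n => max (ws Q c n) 0 * ((A n ∩ Sv U Q n).card : ℝ)) - VV Q / VV ⌈t ^ (1 + 2 * a)⌉₊ *
      mP Q (fun n => max (ws Q c n) 0 * ((A n ∩ Sv U ⌈t ^ (1 + 2 * a)⌉₊ n).card : ℝ))| ≤
      ε * (VV Q / VV ⌈t ^ (1 + 2 * a)⌉₊ *
        mP Q (fun n => max (ws Q c n) 0 * ((A n ∩ Sv U ⌈t ^ (1 + 2 * a)⌉₊ n).card : ℝ))) +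
      ε * (U * VV Q) * mP Q (fun n => |ws Q c n|) := by
  classical
  obtain ⟨K, hK, hM⟩ := t_MERB2
  obtain ⟨ξ, hξ, hξ1, hξ2⟩ : ∃ ξ : ℝ, 0 < ξ ∧ ξ ≤ 1 / 16 ∧ 600 * ξ ≤ ε ∧ 600 * ξ ≤ 1 :=
    ⟨min (1 / 600) (ε / 600), lt_min (by norm_num) (by positivity), by
      have := min_le_left (1 / 600) (ε / 600)
      linarith, by
      have := min_le_right (1 / 600) (ε / 600)
      linarith, by
      have := min_le_left (1 / 600) (ε / 600)
      linarith⟩
  obtain ⟨hξ2, hξ3⟩ := hξ2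
  refine ⟨8 * K ^ 3 / (ξ * ε), by positivity, ?_⟩
  have hl : Tendsto Real.log atTop atTop := Real.tendsto_log_atTop
  have ev2 : ∀ᶠ t : ℝ in atTop, t ^ (1 + 2 * a) + 1 ≤ Real.exp (t / 1000) := by
    have h1 := (isLittleO_rpow_exp_pos_mul_atTop (1 + 2 * a) (show (0 : ℝ) < 1 / 1000 by norm_num)).bound
      (show (0 : ℝ) < 1 / 2 by norm_num)
    filter_upwards [h1, eventually_ge_atTop (1 : ℝ)] with t h2 h3
    rw [Real.norm_of_nonneg (Real.rpow_nonneg (by linarith) _), Real.norm_of_nonneg (Real.exp_pos _).le] at h2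
    have h4 : 1 ≤ t ^ (1 + 2 * a) := Real.one_le_rpow h3 (by linarith)
    have h5 : (1 : ℝ) / 1000 * t = t / 1000 := by ring
    rw [h5] at h2
    linarith
  have ev3 : ∀ᶠ t : ℝ in atTop, Real.log t ≤ ξ / 16 * t ^ a := by
    filter_upwards [(isLittleO_log_rpow_atTop ha).bound (show (0 : ℝ) < ξ / 16 by positivity),
      eventually_ge_atTop (1 : ℝ)] with t h1 h2
    rw [Real.norm_of_nonneg (Real.log_nonneg h2), Real.norm_of_nonneg (Real.rpow_nonneg (by linarith) _)] at h1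
    exact h1
  filter_upwards [ev2, ev3, hl.eventually_ge_atTop (1 : ℝ), eventually_ge_atTop (max 4 K),
    (tendsto_rpow_atTop ha).eventually_ge_atTop 4] with t ht2 ht5 ht3 ht4 ht6
  intro Q hQ1 hQ2 U hUB hUa c z A hz hAU hAper
  have ht4' : 4 ≤ t := (le_max_left _ _).trans ht4
  have htK : K ≤ t := (le_max_right _ _).trans ht4
  have ht0 : (0 : ℝ) < t := by linarith
  set L := Real.log t with hL
  have hL0 : 0 < L := by linarith
  set y := ⌈t ^ (1 + 2 * a)⌉₊ with hy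
  have hyt : t ^ (1 + 2 * a) ≤ (y : ℝ) := Nat.le_ceil _
  have hyt2 : (y : ℝ) < t ^ (1 + 2 * a) + 1 := Nat.ceil_lt_add_one (Real.rpow_nonneg ht0.le _)
  have hta : 0 < t ^ a := Real.rpow_pos_of_pos ht0 _
  have hsplit : t ^ (1 + 2 * a) = t ^ (1 + a) * t ^ a := by
    rw [← Real.rpow_add ht0]
    congr 1
    ring
  have hpw : t ≤ t ^ (1 + a) := by
    calc t = t ^ (1 : ℝ) := (Real.rpow_one t).symm
      _ ≤ t ^ (1 + a) := Real.rpow_le_rpow_of_exponent_le (by linarith) (by linarith)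
  have hpw0 : 0 < t ^ (1 + a) := by linarith
  have hUy : (U : ℝ) * 4 ≤ y := by
    calc (U : ℝ) * 4 ≤ t ^ (1 + a) * t ^ a := mul_le_mul hUa ht6 (by norm_num) hpw0.le
      _ ≤ y := by rw [← hsplit]; exact hyt
  have hy4 : (4 : ℝ) ≤ y := by nlinarith
  have hy0 : (0 : ℝ) < y := by linarith
  have hy2 : 2 ≤ y := by
    have : (2 : ℝ) ≤ y := by linarith
    exact_mod_cast this
  have h2Uy : 2 * U ≤ y := by
    have : (2 : ℝ) * U ≤ y := by
      have : (0 : ℝ) ≤ U := Nat.cast_nonneg _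
      linarith
    exact_mod_cast this
  have hQ0 : (0 : ℝ) < Q := by
    rcases Nat.eq_zero_or_pos Q with h | h
    · rw [h, Nat.cast_zero, Real.log_zero] at hQ1
      linarith
    · exact_mod_cast h
  have hyQ : y ≤ Q := by
    have h1 : Real.exp (t / 1000) ≤ Q := by
      rw [← Real.exp_log hQ0]
      exact Real.exp_le_exp.2 hQ1
    have h2 : (y : ℝ) ≤ Q := by linarith
    exact_mod_cast h2
  refine ⟨hyQ, ?_⟩
  have hly1 : 1 ≤ Real.log y := by
    have h1 : t ≤ y := by nlinarith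
    exact ht3.trans (Real.log_le_log ht0 h1)
  have hlQ0 : 0 < Real.log Q := by
    have : 0 < t / 1000 := by positivity
    linarith
  have hDL : RECD Q y ≤ 2 * L := by
    have h1 := (hM y Q hy2 hyQ).2.1
    have h1' : Real.log y / Real.log Q ≤ K * Real.exp (-(RECD Q y)) := h1
    have h2 : 1 / t ≤ Real.log y / Real.log Q := div_le_div₀ (by linarith) hly1 hlQ0 hQ2
    have h3 : Real.exp (RECD Q y) ≤ K * t := by
      have h4 : 1 / t ≤ K * Real.exp (-(RECD Q y)) := h2.trans h1'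
      rw [Real.exp_neg, ← div_eq_mul_inv, div_le_div_iff₀ ht0 (Real.exp_pos _)] at h4
      linarith
    have h5 : RECD Q y ≤ Real.log (K * t) := by
      rw [← Real.log_exp (RECD Q y)]
      exact Real.log_le_log (Real.exp_pos _) h3
    rw [Real.log_mul (by linarith) ht0.ne'] at h5
    have h6 : Real.log K ≤ L := Real.log_le_log (by linarith) htK
    linarith
  set P := PQ Q y with hP
  have hPm : ∀ p ∈ P, (1 ≤ p ∧ p ≤ Q) ∧ p.Prime ∧ y < p := by
    intro p hp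
    rw [hP] at hp
    unfold PQ at hp
    rw [mem_filter, mem_Icc] at hp
    exact hp
  have hPp : ∀ p ∈ P, p.Prime := fun p hp => (hPm p hp).2.1
  have hVy0 : 0 < VV y := MERB_pos y
  have hVQ0 : 0 < VV Q := MERB_pos Q
  have hVP : V P = VV Q / VV y := by
    rw [eq_div_iff hVy0.ne']
    exact V_split hyQ
  set D : ℝ := K ^ 2 * (Real.log Q / Real.log y) with hD
  have hD0 : 0 < D := by positivity
  have hs : ∀ p ∈ P, 1 / V (P.filter (fun q => q ≤ p)) ≤ D * (Real.log p / Real.log Q) := by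
    intro p hp
    obtain ⟨⟨_, hpQ⟩, _, hyp⟩ := hPm p hp
    have h1 : P.filter (fun q => q ≤ p) = PQ p y := by
      ext q
      rw [hP]
      simp only [PQ, mem_filter, mem_Icc]
      constructor
      · rintro ⟨⟨⟨b1, b2⟩, b3, b4⟩, b5⟩
        exact ⟨⟨b1, b5⟩, b3, b4⟩
      · rintro ⟨⟨b1, b2⟩, b3, b4⟩
        exact ⟨⟨⟨b1, b2.trans hpQ⟩, b3, b4⟩, b2⟩
    have h2 : V (PQ p y) = VV p / VV y := by
      rw [eq_div_iff hVy0.ne']
      exact V_split hyp.le
    have hlp0 : 0 < Real.log p := by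
      have : (y : ℝ) < p := by exact_mod_cast hyp
      exact Real.log_pos (by linarith)
    have h3 := (hM p p (hy2.trans hyp.le) le_rfl).2.2.1
    have h4 := (hM y y hy2 le_rfl).2.2.2
    rw [h1, h2, one_div_div]
    have h5 : VV y / VV p ≤ (K / Real.log y) / (1 / (K * Real.log p)) :=
      div_le_div₀ (by positivity) h4 (by positivity) h3
    refine h5.trans (le_of_eq ?_)
    rw [hD]
    field_simp
  have hκ : ∀ p ∈ P, (U : ℝ) / p ≤ 1 / t ^ a := by
    intro p hp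
    have h1 : (y : ℝ) < p := by exact_mod_cast (hPm p hp).2.2
    rw [div_le_div_iff₀ (by linarith) hta, one_mul]
    calc (U : ℝ) * t ^ a ≤ t ^ (1 + a) * t ^ a := mul_le_mul_of_nonneg_right hUa hta.le
      _ ≤ y := by rw [← hsplit]; exact hyt
      _ ≤ p := h1.le
  have hxL : 0 < ξ / L := by positivity
  have hSper : ∀ n, A (n + PP y) ∩ Sv U y (n + PP y) = A n ∩ Sv U y n := by
    intro n
    rw [Sv_per, per_dvd hAper (PP_dvd hz) n]
  have key := seqz av gen2 nx Q U P (fun n => A n ∩ Sv U y n) c D (ξ / L) (2 * L) (1 / t ^ a)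
    (hy2.trans hyQ)
    (fun p hp => ⟨(hPm p hp).2.1, lt_of_le_of_lt h2Uy (hPm p hp).2.2, (hPm p hp).1.2⟩)
    (fun n => by
      rw [hP, sdiff_PQ hyQ]
      exact hSper n) (fun n => inter_subset_left.trans (hAU n)) hD0 hxL (by
      have : ξ / L ≤ ξ := div_le_self hξ.le ht3
      linarith) hDL (by
      have : 8 * (ξ / L * (2 * L)) = 16 * ξ := by field_simp; norm_num
      rw [this]
      linarith) hκ (by positivity) hs
  have hleft : ∀ n, HX_left P (A n ∩ Sv U y n) n = A n ∩ Sv U Q n := fun n => left_inter hyQ U n (A n)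
  simp only [hleft] at key
  set AQ := mP Q (fun n => max (ws Q c n) 0 * ((A n ∩ Sv U Q n).card : ℝ)) with hAQ
  set By := mP Q (fun n => max (ws Q c n) 0 * ((A n ∩ Sv U y n).card : ℝ)) with hBy
  set m := mP Q (fun n => |ws Q c n|) with hm
  have hm0 : 0 ≤ m := mP_nonneg Q fun n => abs_nonneg _
  have hBy0 : 0 ≤ By := mP_nonneg Q (fun n => mul_nonneg (le_max_right _ _) (Nat.cast_nonneg _))
  set w1 : ℝ := 2 * (ξ / L) + (64 * (ξ / L) + 8 * (1 / t ^ a)) * (2 * L) with hw1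
  have hw1a : w1 ≤ 131 * ξ := by
    have b1 : ξ / L ≤ ξ := div_le_self hξ.le ht3
    have b2 : (64 * (ξ / L) + 8 * (1 / t ^ a)) * (2 * L) = 128 * ξ + 16 * (L / t ^ a) := by
      field_simp
      ring
    have b3 : L / t ^ a ≤ ξ / 16 := by
      rw [div_le_iff₀ hta]
      exact ht5
    rw [hw1, b2]
    linarith
  have hVP0 : 0 < V P := V_pos P hPp
  have hUr : (0 : ℝ) ≤ U := Nat.cast_nonneg _
  rw [← hVP]
  have e1 : AQ - V P * By = V P * (AQ / V P - By) := by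
    field_simp
  rw [e1, abs_mul, abs_of_pos hVP0]
  have e2 := mul_le_mul_of_nonneg_left key hVP0.le
  refine e2.trans ?_
  have e3 : V P * (2 * w1 * By) ≤ ε * (V P * By) := by
    have b1 : 2 * w1 ≤ ε := by linarith
    have b2 := mul_le_mul_of_nonneg_right b1 (mul_nonneg hVP0.le hBy0)
    linarith
  have e4 : V P * ((1 + w1) * (2 * D / (ξ / L)) * m) ≤ ε * (U * VV Q) * m := by
    have b0 : 0 ≤ w1 := by
      rw [hw1]
      positivity
    have b1 : 1 + w1 ≤ 2 := by linarith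
    have b2 : V P * (2 * D / (ξ / L)) ≤ VV Q * (2 * K ^ 3 / ξ * (t * L)) := by
      have b3 : 1 / VV y ≤ K * Real.log y := by
        have b4 := (hM y y hy2 le_rfl).2.2.1
        rw [div_le_iff₀ (by positivity)] at b4
        rw [div_le_iff₀ hVy0]
        linarith
      rw [hVP, hD]
      calc VV Q / VV y * (2 * (K ^ 2 * (Real.log Q / Real.log y)) / (ξ / L)) =
            VV Q * (1 / VV y) * (2 * K ^ 2 * L / ξ * (Real.log Q / Real.log y)) := by
            field_simp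
        _ ≤ VV Q * (K * Real.log y) * (2 * K ^ 2 * L / ξ * (t / Real.log y)) := by
            apply mul_le_mul
            · exact mul_le_mul_of_nonneg_left b3 hVQ0.le
            · apply mul_le_mul_of_nonneg_left _ (by positivity)
              exact div_le_div_of_nonneg_right hQ2 (by linarith)
            · positivity
            · positivity
        _ = VV Q * (2 * K ^ 3 / ξ * (t * L)) := by
            field_simp
    have b5 : 2 * (2 * K ^ 3 / ξ * (t * L)) ≤ ε * U := by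
      have b6 : 8 * K ^ 3 / (ξ * ε) * (t * L) * ε ≤ U * ε := mul_le_mul_of_nonneg_right hUB hε.le
      have b7 : 8 * K ^ 3 / (ξ * ε) * (t * L) * ε = 8 * K ^ 3 / ξ * (t * L) := by field_simp
      have b8 : 0 ≤ K ^ 3 / ξ * (t * L) := by positivity
      have b9 : 8 * K ^ 3 / ξ * (t * L) = 8 * (K ^ 3 / ξ * (t * L)) := by ring
      have b10 : 2 * (2 * K ^ 3 / ξ * (t * L)) = 4 * (K ^ 3 / ξ * (t * L)) := by ring
      rw [b7, b9] at b6
      rw [b10]
      linarith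
    calc V P * ((1 + w1) * (2 * D / (ξ / L)) * m) = (1 + w1) * (V P * (2 * D / (ξ / L))) * m := by ring
      _ ≤ 2 * (VV Q * (2 * K ^ 3 / ξ * (t * L))) * m := by
          apply mul_le_mul_of_nonneg_right _ hm0
          exact mul_le_mul b1 b2 (by positivity) (by norm_num)
      _ = VV Q * (2 * (2 * K ^ 3 / ξ * (t * L))) * m := by ring
      _ ≤ VV Q * (ε * U) * m := by
          apply mul_le_mul_of_nonneg_right _ hm0
          exact mul_le_mul_of_nonneg_left b5 hVQ0.le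
      _ = ε * (U * VV Q) * m := by ring
  have e5 : V P * (2 * w1 * By + (1 + w1) * (2 * D / (ξ / L)) * m) =
      V P * (2 * w1 * By) + V P * ((1 + w1) * (2 * D / (ξ / L)) * m) := by ring
  rw [e5]
  exact add_le_add e3 e4

end Pool.Agent.H301.SY
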