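import Pool.Agent.H301.SY.SeqZ
import Pool.Agent.H301.SX.SeqT
import Pool.Graph.R_pool_sql_team_seeded_63374d34.N422.LR.HX

/-! All scales at once, for the positive part of a real function of bounded level on the integers. -/

set_option autoImplicit false

open Finset

namespace Pool.Agent.H301.SY

open Pool.Agent.N422.NW Pool.Agent.N422.LR Pool.Agent.N422.LG Pool.Agent.N422.SL Pool.Agent.N422.WS
open Pool.Agent.Y829 (V)
open Pool.Agent.H301.SX (Pi1 qo qo_mem qo_inj qo_surj qo_sum qo_Pi1 qo_PiN)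

open Classical in
/-- one residue class modulo `R` -/
theorem seqz_one (hA : S_AV) (hG2 : S_GEN2) (hNX : S_NX) (Q R r n : ℕ) (P T : Finset ℕ) (ν : ℕ → ℕ) (c : ℕ → ℕ → ℝ)
    (hP : ∀ p ∈ P, p.Prime ∧ ¬ p ∣ R) (hQR : ∀ p : ℕ, p.Prime → p ≤ Q → p ∈ P ∨ p ∣ R)
    (hT : ∀ p ∈ P, 2 * T.card ≤ p) (hT2 : ∀ p ∈ P, ∀ h ∈ T, ∀ h' ∈ T, h' < h + p)
    (hlev : ∀ d, 1 ≤ d → d ≤ Q → ∑ p ∈ P.filter (fun p => p ∣ d), ν p ≤ n)
    (τ D x J κ : ℝ) (hτ : 0 < τ) (hD : 0 < D)
    (hx : 0 < x) (hx1 : x ≤ 1 / 12) (hJ : ∑ p ∈ P, 1 / (p : ℝ) ≤ J) (hJx : 8 * (x * J) ≤ 1)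
    (hκ : ∀ p ∈ P, (T.card : ℝ) / p ≤ κ) (hκ0 : 0 ≤ κ)
    (hν : ∀ p ∈ P, 0 < ν p) (hs : ∀ p ∈ P, 1 / V (P.filter (fun q => q ≤ p)) ≤ D * Real.sinh (ν p * τ))
    (hc : ∀ p ∈ P, Real.cosh (ν p * τ) ≤ 2) :
    |∑ t ∈ range (∏ p ∈ P, p), max (ws Q c (r + R * t)) 0 * (((HX_left P T (r + R * t)).card : ℝ) / V P) -
        T.card * ∑ t ∈ range (∏ p ∈ P, p), max (ws Q c (r + R * t)) 0| ≤
      D / x * (n * τ * ∑ t ∈ range (∏ p ∈ P, p), max (ws Q c (r + R * t)) 0 +
        ∑ t ∈ range (∏ p ∈ P, p), max (-ws Q c (r + R * t)) 0) +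
      (2 * x + (64 * x + 8 * κ) * J) * (2 * T.card * ∑ t ∈ range (∏ p ∈ P, p), max (ws Q c (r + R * t)) 0 +
        D / x * (n * τ * ∑ t ∈ range (∏ p ∈ P, p), max (ws Q c (r + R * t)) 0 +
          ∑ t ∈ range (∏ p ∈ P, p), max (-ws Q c (r + R * t)) 0)) := by
  set q : Fin P.card → ℕ := qo P with hq
  have hqP : ∀ i, q i ∈ P := fun i => qo_mem P i
  have hinj : Function.Injective q := qo_inj P
  set hs' : Fin T.card → ℕ := fun a => T.equivFin.symm a with hhs
  have hsT : ∀ a, hs' a ∈ T := fun a => (T.equivFin.symm a).2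
  have hsinj : Function.Injective hs' := Subtype.val_injective.comp T.equivFin.symm.injective
  have hqp : ∀ i, (q i).Prime := fun i => (hP _ (hqP i)).1
  have hbij := HX_bij q hqp hinj R r (fun i => (hP _ (hqP i)).2)
  set E : Fin (∏ i, q i) ≃ Xs q := Equiv.ofBijective _ hbij with hE
  have hEi : ∀ t i, ((E t i : Fin (q i)) : ℕ) = (r + R * (t : ℕ)) % q i := fun t i => rfl
  have hEs : ∀ x i, ((x i : Fin (q i)) : ℕ) = (r + R * ((E.symm x : Fin (∏ i, q i)) : ℕ)) % q i := by
    intro x i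
    rw [← hEi, E.apply_symm_apply]
  set f : Xs q → ℝ := fun x => ws Q c (r + R * ((E.symm x : Fin (∏ i, q i)) : ℕ)) with hf
  set σ : (i : Fin P.card) → Fin (q i) → Option (Fin T.card) := fun i u =>
    if h : ∃ a, q i ∣ (u : ℕ) + hs' a then some h.choose else none with hσ
  have hσ1 : ∀ i u a, σ i u = some a ↔ q i ∣ (u : ℕ) + hs' a := by
    intro i u a
    have huniq : ∀ a a', q i ∣ (u : ℕ) + hs' a → q i ∣ (u : ℕ) + hs' a' → a = a' := by
      intro a a' ha ha'
      apply hsinj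
      rcases le_total (hs' a) (hs' a') with hle | hle
      · have h3 := Nat.dvd_sub ha' ha
        have h4 : (u : ℕ) + hs' a' - ((u : ℕ) + hs' a) = hs' a' - hs' a := by omega
        rw [h4] at h3
        have h5 := hT2 _ (hqP i) _ (hsT a) _ (hsT a')
        have h6 := Nat.eq_zero_of_dvd_of_lt h3 (by omega)
        omega
      · have h3 := Nat.dvd_sub ha ha'
        have h4 : (u : ℕ) + hs' a - ((u : ℕ) + hs' a') = hs' a - hs' a' := by omega
        rw [h4] at h3
        have h5 := hT2 _ (hqP i) _ (hsT a') _ (hsT a)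
        have h6 := Nat.eq_zero_of_dvd_of_lt h3 (by omega)
        omega
    by_cases hex : ∃ a, q i ∣ (u : ℕ) + hs' a
    · have e : σ i u = some hex.choose := by
        simp only [hσ]
        rw [dif_pos hex]
      rw [e, Option.some.injEq]
      constructor
      · intro h
        rw [← h]
        exact hex.choose_spec
      · intro h
        exact huniq _ _ hex.choose_spec h
    · have e : σ i u = none := by
        simp only [hσ]
        rw [dif_neg hex]
      rw [e]
      constructor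
      · intro h
        exact absurd h (by simp)
      · intro h
        exact absurd ⟨a, h⟩ hex
  have hOne : One σ := by
    intro i a
    have e : (univ.filter (fun u : Fin (q i) => σ i u = some a)) =
        univ.filter (fun u : Fin (q i) => q i ∣ (u : ℕ) + hs' a) := by
      ext u
      rw [mem_filter, mem_filter, hσ1]
    rw [e]
    exact HX_one_class (hqp i).pos
  have hLev : LevX (fun i => ν (q i)) n f := by
    set D : Finset ℕ := (Icc 1 Q).filter Squarefree with hD
    refine ⟨D.card, fun j => univ.filter (fun i => q i ∣ (D.equivFin.symm j : ℕ)),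
      fun j x => c (D.equivFin.symm j : ℕ) ((r + R * ((E.symm x : Fin (∏ i, q i)) : ℕ)) %
        (D.equivFin.symm j : ℕ)), ?_, ?_, ?_⟩
    · intro j
      have hj := (mem_filter.1 (D.equivFin.symm j).2).1
      rw [mem_Icc] at hj
      refine le_trans ?_ (hlev _ hj.1 hj.2)
      rw [Finset.sum_filter, Finset.sum_filter]
      have e0 := qo_sum P (fun p => if p ∣ (D.equivFin.symm j : ℕ) then (ν p : ℝ) else 0)
      have e1 : ∑ i, (if q i ∣ (D.equivFin.symm j : ℕ) then ν (q i) else 0) =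
          ∑ p ∈ P, (if p ∣ (D.equivFin.symm j : ℕ) then ν p else 0) := by
        exact_mod_cast e0
      exact le_of_eq e1
    · intro j x x' hxx
      have hj := mem_filter.1 (D.equivFin.symm j).2
      have hj1 := mem_Icc.1 hj.1
      show c (D.equivFin.symm j : ℕ) ((r + R * ((E.symm x : Fin (∏ i, q i)) : ℕ)) % (D.equivFin.symm j : ℕ)) =
        c (D.equivFin.symm j : ℕ) ((r + R * ((E.symm x' : Fin (∏ i, q i)) : ℕ)) % (D.equivFin.symm j : ℕ))
      congr 1
      refine HX_dep Q R r _ _ _ P hQR hj.2 hj1.2 ?_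
      intro p hp hpd
      obtain ⟨i, hi⟩ := qo_surj P hp
      have e1 : q i = p := hi
      have e2 := hEs x i
      have e3 := hEs x' i
      have e4 := hxx i (mem_filter.2 ⟨mem_univ _, by rw [e1]; exact hpd⟩)
      rw [e4] at e2
      rw [e2] at e3
      rw [e1] at e3
      exact e3
    · intro x
      show ws Q c (r + R * ((E.symm x : Fin (∏ i, q i)) : ℕ)) = _
      unfold ws
      exact (HX_sum D (fun d => c d ((r + R * ((E.symm x : Fin (∏ i, q i)) : ℕ)) % d))).symm
  have h4 := seqZ hA hG2 hNX P.card T.card n q σ (fun i => ν (q i)) f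
    (fun i => ⟨hT _ (hqP i), (hqp i).two_le⟩) hOne hLev τ D x J κ hτ hD hx hx1
    (by rw [hq, qo_sum P (fun p => 1 / (p : ℝ))]; exact hJ) hJx (fun i => hκ _ (hqP i)) hκ0
    (fun i => hν _ (hqP i)) (fun i => by
      rw [hq, qo_Pi1]
      exact hs _ (qo_mem P i)) (fun i => hc _ (hqP i))
  unfold MZ at h4
  have hPi : Pi1 (fun i => (q i : ℝ)) P.card = V P := qo_PiN P
  rw [hPi] at h4
  have hfE : ∀ t, f (E t) = ws Q c (r + R * (t : ℕ)) := by
    intro t
    simp only [hf]
    rw [E.symm_apply_apply]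
  have hal : ∀ t, (al σ (E t) P.card).card = (HX_left P T (r + R * (t : ℕ))).card := by
    intro t
    refine Finset.card_bij (fun a _ => hs' a) ?_ ?_ ?_
    · intro a ha
      rw [al, mem_filter] at ha
      refine mem_filter.2 ⟨hsT a, ?_⟩
      intro p hp hdv
      obtain ⟨i, hi⟩ := qo_surj P hp
      have e1 : q i = p := hi
      refine ha.2 i i.2 ((hσ1 _ _ _).2 ?_)
      rw [hEi, e1]
      exact ((Nat.mod_modEq (r + R * (t : ℕ)) p).add_right (hs' a)).dvd_iff dvd_rfl |>.2 hdv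
    · intro a _ a' _ h
      exact hsinj h
    · intro h hh
      rw [HX_left, mem_filter] at hh
      refine ⟨T.equivFin ⟨h, hh.1⟩, ?_, by simp [hhs]⟩
      rw [al, mem_filter]
      refine ⟨mem_univ _, fun i _ hcon => ?_⟩
      rw [hσ1, hEi] at hcon
      have e2 : hs' (T.equivFin ⟨h, hh.1⟩) = h := by simp [hhs]
      rw [e2] at hcon
      exact hh.2 (q i) (hqP i)
        (((Nat.mod_modEq (r + R * (t : ℕ)) (q i)).add_right h).dvd_iff dvd_rfl |>.1 hcon)
  have hK : ∏ i, q i = ∏ p ∈ P, p := by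
    have h5 := Finset.map_orderEmbOfFin_univ P rfl
    conv_rhs => rw [← h5]
    rw [prod_map]
    rfl
  have hsumE : ∀ G : Xs q → ℝ, ∑ x, G x = ∑ t, G (E t) := fun G => (Equiv.sum_comp E G).symm
  rw [hsumE, hsumE, hsumE] at h4
  simp only [hfE, hal] at h4
  have hran : ∀ G : ℕ → ℝ, ∑ t : Fin (∏ i, q i), G (t : ℕ) = ∑ t ∈ range (∏ p ∈ P, p), G t := by
    intro G
    rw [Fin.sum_univ_eq_sum_range G (∏ i, q i), hK]
  rw [hran (fun t => max (ws Q c (r + R * t)) 0 * (((HX_left P T (r + R * t)).card : ℝ) / V P)),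
    hran (fun t => max (ws Q c (r + R * t)) 0),
    hran (fun t => max (-ws Q c (r + R * t)) 0)] at h4
  exact h4

/-- all scales at once, for the positive part of a real function -/
theorem seqz (hA : S_AV) (hG2 : S_GEN2) (hNX : S_NX) (Q U : ℕ) (P : Finset ℕ) (S : ℕ → Finset ℕ)
    (c : ℕ → ℕ → ℝ) (D x J κ : ℝ) (hQ : 2 ≤ Q)
    (hP : ∀ p ∈ P, p.Prime ∧ 2 * U < p ∧ p ≤ Q)
    (hS : ∀ n, S (n + ∏ p ∈ ((Icc 1 Q).filter Nat.Prime) \ P, p) = S n) (hSU : ∀ n, S n ⊆ Icc 1 U)
    (hD : 0 < D) (hx : 0 < x) (hx1 : x ≤ 1 / 12) (hJ : ∑ p ∈ P, 1 / (p : ℝ) ≤ J)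
    (hJx : 8 * (x * J) ≤ 1) (hκ : ∀ p ∈ P, (U : ℝ) / p ≤ κ) (hκ0 : 0 ≤ κ)
    (hs : ∀ p ∈ P, 1 / V (P.filter (fun q => q ≤ p)) ≤ D * (Real.log p / Real.log Q)) :
    |mP Q (fun n => max (ws Q c n) 0 * ((HX_left P (S n) n).card : ℝ)) / V P -
        mP Q (fun n => max (ws Q c n) 0 * ((S n).card : ℝ))| ≤
      2 * (2 * x + (64 * x + 8 * κ) * J) * mP Q (fun n => max (ws Q c n) 0 * ((S n).card : ℝ)) +
      (1 + (2 * x + (64 * x + 8 * κ) * J)) * (2 * D / x) * mP Q (fun n => |ws Q c n|) := by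
  classical
  set A : Finset ℕ := (Icc 1 Q).filter Nat.Prime with hAdef
  set R : ℕ := ∏ p ∈ A \ P, p with hRdef
  have hPA : P ⊆ A := by
    intro p hp
    have h1 := hP p hp
    rw [hAdef, mem_filter, mem_Icc]
    exact ⟨⟨h1.1.one_lt.le, h1.2.2⟩, h1.1⟩
  have hR0 : 0 < R := prod_pos fun p hp => (mem_filter.1 (mem_sdiff.1 hp).1).2.pos
  set K : ℕ := ∏ p ∈ P, p with hK
  have hK0 : 0 < K := prod_pos fun p hp => (hP p hp).1.pos
  have hM : PP Q = R * K := (Finset.prod_sdiff hPA).symm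
  have hP' : ∀ p ∈ P, p.Prime ∧ ¬ p ∣ R := by
    intro p hp
    have h1 := hP p hp
    refine ⟨h1.1, fun hdv => ?_⟩
    obtain ⟨q', hq', h2⟩ := (Prime.dvd_finsetProd_iff h1.1.prime _).1 hdv
    have h3 := mem_sdiff.1 hq'
    have h4 := (Nat.prime_dvd_prime_iff_eq h1.1 (mem_filter.1 h3.1).2).1 h2
    rw [← h4] at h3
    exact h3.2 hp
  have hQR : ∀ p : ℕ, p.Prime → p ≤ Q → p ∈ P ∨ p ∣ R := by
    intro p hpp hpQ
    by_cases hp : p ∈ P
    · exact Or.inl hp
    · refine Or.inr (Finset.dvd_prod_of_mem (fun p => p) (mem_sdiff.2 ⟨?_, hp⟩))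
      rw [hAdef, mem_filter, mem_Icc]
      exact ⟨⟨hpp.one_lt.le, hpQ⟩, hpp⟩
  have hlogQ : 0 < Real.log Q := Real.log_pos (by exact_mod_cast (by omega : 1 < Q))
  have hlog2 : 0 < Real.log 2 := Real.log_pos (by norm_num)
  obtain ⟨n, hn⟩ : ∃ n : ℕ, Real.log Q / Real.log 2 + 1 ≤ n := exists_nat_ge _
  have hnpos : (0 : ℝ) < n := by
    have : 0 < Real.log Q / Real.log 2 := by positivity
    linarith
  have hnQ : Real.log Q ≤ n * Real.log 2 := by
    have h4 : Real.log Q / Real.log 2 ≤ n := by linarith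
    rwa [div_le_iff₀ hlog2] at h4
  set ν : ℕ → ℕ := fun p => ⌊(n : ℝ) * Real.log p / Real.log Q⌋₊ with hν
  have hlev : ∀ d, 1 ≤ d → d ≤ Q → ∑ p ∈ P.filter (fun p => p ∣ d), ν p ≤ n := by
    intro d hd1 hd2
    have h3 : ∏ p ∈ P.filter (fun p => p ∣ d), p ∣ d := by
      refine Finset.prod_primes_dvd d ?_ ?_
      · intro p hp
        exact (hP p (mem_filter.mp hp).1).1.prime
      · intro p hp
        exact (mem_filter.mp hp).2
    have h4 : ∏ p ∈ P.filter (fun p => p ∣ d), p ≤ Q := (Nat.le_of_dvd hd1 h3).trans hd2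
    have h5 : ∑ p ∈ P.filter (fun p => p ∣ d), Real.log p ≤ Real.log Q := by
      rw [← Real.log_prod (fun p hp => by
        have := (hP p (mem_filter.mp hp).1).1.pos
        positivity)]
      have h4' : ((∏ p ∈ P.filter (fun p => p ∣ d), p : ℕ) : ℝ) ≤ Q := Nat.cast_le.mpr h4
      rw [Nat.cast_prod] at h4'
      refine Real.log_le_log ?_ h4'
      refine prod_pos fun p hp => ?_
      have := (hP p (mem_filter.mp hp).1).1.pos
      positivity
    have h6 : ((∑ p ∈ P.filter (fun p => p ∣ d), ν p : ℕ) : ℝ) ≤ n := by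
      push_cast
      calc ∑ p ∈ P.filter (fun p => p ∣ d), ((ν p : ℕ) : ℝ)
          ≤ ∑ p ∈ P.filter (fun p => p ∣ d), (n : ℝ) * Real.log p / Real.log Q := by
            refine sum_le_sum fun p _ => ?_
            refine Nat.floor_le ?_
            have := Real.log_natCast_nonneg p
            positivity
        _ = n * (∑ p ∈ P.filter (fun p => p ∣ d), Real.log p) / Real.log Q := by
            rw [← sum_div, ← mul_sum]
        _ ≤ n * Real.log Q / Real.log Q := by
            refine div_le_div_of_nonneg_right ?_ hlogQ.le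
            exact mul_le_mul_of_nonneg_left h5 hnpos.le
        _ = n := by field_simp
    exact_mod_cast h6
  have hνn : ∀ p ∈ P, 1 ≤ (n : ℝ) * Real.log p / Real.log Q ∧ (n : ℝ) * Real.log p / Real.log Q ≤ n := by
    intro p hp
    have hp2 : (2 : ℝ) ≤ p := by exact_mod_cast (hP p hp).1.two_le
    have hpQ : (p : ℝ) ≤ Q := by exact_mod_cast (hP p hp).2.2
    constructor
    · rw [le_div_iff₀ hlogQ, one_mul]
      exact hnQ.trans (mul_le_mul_of_nonneg_left (Real.log_le_log (by norm_num) hp2) hnpos.le)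
    · rw [div_le_iff₀ hlogQ]
      exact mul_le_mul_of_nonneg_left (Real.log_le_log (by linarith) hpQ) hnpos.le
  have hν1 : ∀ p ∈ P, 1 ≤ ν p := fun p hp => Nat.le_floor (by
    rw [Nat.cast_one]
    exact (hνn p hp).1)
  have hν2 : ∀ p ∈ P, (n : ℝ) * Real.log p / Real.log Q ≤ 2 * ν p := by
    intro p hp
    have h4 : (n : ℝ) * Real.log p / Real.log Q < ν p + 1 := Nat.lt_floor_add_one _
    have h5 : (1 : ℝ) ≤ ν p := by exact_mod_cast hν1 p hp
    linarith
  have hν3 : ∀ p ∈ P, (ν p : ℝ) ≤ n := by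
    intro p hp
    have h4 : (ν p : ℝ) ≤ (n : ℝ) * Real.log p / Real.log Q := Nat.floor_le (by
      have := (hνn p hp).1
      linarith)
    exact h4.trans (hνn p hp).2
  have ht : (0 : ℝ) < 1 / n := by positivity
  have hcosh : ∀ p ∈ P, Real.cosh (ν p * (1 / n)) ≤ 2 := by
    intro p hp
    have h4 : (ν p : ℝ) * (1 / n) ≤ 1 := by
      rw [mul_one_div, div_le_one hnpos]
      exact hν3 p hp
    have h5 : Real.cosh (ν p * (1 / n)) ≤ Real.cosh 1 := by
      rw [Real.cosh_le_cosh, abs_of_nonneg (by positivity), abs_one]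
      exact h4
    have h6 : Real.cosh 1 ≤ 2 := by
      rw [Real.cosh_eq]
      have e1 := Real.exp_one_lt_d9
      have e2 : Real.exp (-1) ≤ 1 := Real.exp_le_one_iff.2 (by norm_num)
      linarith
    exact h5.trans h6
  have hsinh : ∀ p ∈ P, 1 / V (P.filter (fun q => q ≤ p)) ≤ 2 * D * Real.sinh (ν p * (1 / n)) := by
    intro p hp
    refine (hs p hp).trans ?_
    have h4 : (0 : ℝ) ≤ ν p * (1 / n) := by positivity
    have h5 := Real.self_le_sinh_iff.2 h4
    have h6 : Real.log p / Real.log Q ≤ 2 * (ν p * (1 / n)) := by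
      have h7 := hν2 p hp
      rw [mul_one_div, ← mul_div_assoc, le_div_iff₀ hnpos]
      calc Real.log p / Real.log Q * n = n * Real.log p / Real.log Q := by ring
        _ ≤ 2 * ν p := h7
    calc D * (Real.log p / Real.log Q) ≤ D * (2 * (ν p * (1 / n))) := mul_le_mul_of_nonneg_left h6 hD.le
      _ ≤ D * (2 * Real.sinh (ν p * (1 / n))) := by
          apply mul_le_mul_of_nonneg_left _ hD.le
          linarith
      _ = 2 * D * Real.sinh (ν p * (1 / n)) := by ring
  have hSr : ∀ r t, S (r + R * t) = S r := by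
    intro r t
    induction t with
    | zero => simp
    | succ t ih =>
      rw [Nat.mul_succ, ← Nat.add_assoc, hS, ih]
  have hScard : ∀ r, (S r).card ≤ U := fun r => by
    have h4 := card_le_card (hSU r)
    rw [Nat.card_Icc, Nat.add_sub_cancel] at h4
    exact h4
  set w1 : ℝ := 2 * x + (64 * x + 8 * κ) * J with hw1
  set G : ℝ := 2 * D / x with hG
  have hJ0 : 0 ≤ J := le_trans (sum_nonneg fun i _ => by positivity) hJ
  have hw10 : 0 ≤ w1 := by positivity
  have hG0 : 0 ≤ G := by positivity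
  have hcls : ∀ r ∈ range R, |∑ t ∈ range K, max (ws Q c (r + R * t)) 0 *
        (((HX_left P (S r) (r + R * t)).card : ℝ) / V P) -
        (S r).card * ∑ t ∈ range K, max (ws Q c (r + R * t)) 0| ≤
      G * ∑ t ∈ range K, |ws Q c (r + R * t)| +
      w1 * (2 * (S r).card * ∑ t ∈ range K, max (ws Q c (r + R * t)) 0 +
        G * ∑ t ∈ range K, |ws Q c (r + R * t)|) := by
    intro r _
    have h4 := seqz_one hA hG2 hNX Q R r n P (S r) ν c hP' hQR
      (fun p hp => by
        have a1 := (hP p hp).2.1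
        have a2 := hScard r
        omega)
      (fun p hp h hh h' hh' => by
        have a1 := (hP p hp).2.1
        have a2 := mem_Icc.1 (hSU r hh')
        omega) hlev (1 / n) (2 * D) x J κ ht (by positivity) hx hx1 hJ hJx
      (fun p hp => by
        refine le_trans ?_ (hκ p hp)
        apply div_le_div_of_nonneg_right _ (Nat.cast_nonneg _)
        exact_mod_cast hScard r) hκ0 hν1 hsinh hcosh
    have e1 : (n : ℝ) * (1 / n) = 1 := by
      field_simp
    have e2 : ∑ t ∈ range K, |ws Q c (r + R * t)| = ∑ t ∈ range K, max (ws Q c (r + R * t)) 0 +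
        ∑ t ∈ range K, max (-ws Q c (r + R * t)) 0 := by
      rw [← sum_add_distrib]
      apply sum_congr rfl
      intro t _
      exact abs_split _
    rw [e1, one_mul, ← e2] at h4
    exact h4
  have hMR : (0 : ℝ) < PP Q := by
    rw [hM]
    exact_mod_cast Nat.mul_pos hR0 hK0
  have hmP : ∀ G : ℕ → ℝ, mP Q G = (∑ r ∈ range R, ∑ t ∈ range K, G (r + R * t)) / (PP Q : ℝ) := by
    intro G
    unfold mP
    rw [hM, HX_range R K hR0]
  have e6 : mP Q (fun n => max (ws Q c n) 0 * ((HX_left P (S n) n).card : ℝ)) / V P -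
        mP Q (fun n => max (ws Q c n) 0 * ((S n).card : ℝ)) =
      (∑ r ∈ range R, (∑ t ∈ range K, max (ws Q c (r + R * t)) 0 *
        (((HX_left P (S r) (r + R * t)).card : ℝ) / V P) -
        (S r).card * ∑ t ∈ range K, max (ws Q c (r + R * t)) 0)) / (PP Q : ℝ) := by
    rw [hmP, hmP, sum_sub_distrib, sub_div]
    congr 1
    · rw [div_right_comm]
      congr 1
      rw [sum_div]
      apply sum_congr rfl
      intro r _
      rw [sum_div]
      apply sum_congr rfl
      intro t _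
      rw [hSr]
      ring
    · congr 1
      apply sum_congr rfl
      intro r _
      rw [mul_sum]
      apply sum_congr rfl
      intro t _
      rw [hSr]
      ring
  rw [e6, abs_div, abs_of_pos hMR, div_le_iff₀ hMR]
  refine (abs_sum_le_sum_abs _ _).trans ((sum_le_sum hcls).trans (le_of_eq ?_))
  have e7 : mP Q (fun n => max (ws Q c n) 0 * ((S n).card : ℝ)) * (PP Q : ℝ) =
      ∑ r ∈ range R, (S r).card * ∑ t ∈ range K, max (ws Q c (r + R * t)) 0 := by
    rw [hmP, div_mul_cancel₀ _ hMR.ne']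
    apply sum_congr rfl
    intro r _
    rw [mul_sum]
    apply sum_congr rfl
    intro t _
    rw [hSr]
    ring
  have e8 : mP Q (fun n => |ws Q c n|) * (PP Q : ℝ) = ∑ r ∈ range R, ∑ t ∈ range K, |ws Q c (r + R * t)| := by
    rw [hmP, div_mul_cancel₀ _ hMR.ne']
  have e9 : (2 * w1 * mP Q (fun n => max (ws Q c n) 0 * ((S n).card : ℝ)) +
      (1 + w1) * G * mP Q (fun n => |ws Q c n|)) * (PP Q : ℝ) =
      2 * w1 * (mP Q (fun n => max (ws Q c n) 0 * ((S n).card : ℝ)) * (PP Q : ℝ)) +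
      (1 + w1) * G * (mP Q (fun n => |ws Q c n|) * (PP Q : ℝ)) := by ring
  rw [e9, e7, e8, mul_sum, mul_sum, ← sum_add_distrib]
  apply sum_congr rfl
  intro r _
  ring

end Pool.Agent.H301.SY
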