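import Pool.Agent.H301.SY.BigZ

/-! The formula for the positive part of a real function, short windows. -/

set_option autoImplicit false

namespace Pool.Agent.H301.SY

open Finset Filter Topology
open Pool.Agent.Y829 (HS Sf mem_HS V V_insert)
open Pool.Agent.N422.NW Pool.Agent.N422.LR Pool.Agent.N422.LG Pool.Agent.N422.SL Pool.Agent.N422.WS
open Pool.Agent.H301.SX (V_split VV_eq V_pos Sv_eq HS_mono upW sand2 short ay4 ay7 ay8 ay9 ay10 V_ge V_le_one)

lemma Sv_sub {y Q : ℕ} (h : y ≤ Q) (U n : ℕ) : Sv U Q n ⊆ Sv U y n := by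
  intro a ha
  unfold Sv at ha ⊢
  simp only [mem_filter, mem_Icc] at ha ⊢
  exact ⟨ha.1, fun p hp => ha.2 p ⟨⟨hp.1.1, hp.1.2.trans h⟩, hp.2⟩⟩

/-- sets: the loss in a subset is at most the loss in the whole -/
lemma inter_loss {S S' : Finset ℕ} (h : S' ⊆ S) (A : Finset ℕ) :
    ((A ∩ S').card : ℝ) ≤ ((A ∩ S).card : ℝ) ∧
    ((A ∩ S).card : ℝ) - ((A ∩ S').card : ℝ) ≤ (S.card : ℝ) - (S'.card : ℝ) := by
  have h1 : A ∩ S' ⊆ A ∩ S := inter_subset_inter_left h
  refine ⟨by exact_mod_cast card_le_card h1, ?_⟩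
  have e1 : ((A ∩ S).card : ℝ) - ((A ∩ S').card : ℝ) = (((A ∩ S) \ (A ∩ S')).card : ℝ) := by
    rw [card_sdiff_of_subset h1, Nat.cast_sub (card_le_card h1)]
  have e2 : (S.card : ℝ) - (S'.card : ℝ) = ((S \ S').card : ℝ) := by
    rw [card_sdiff_of_subset h, Nat.cast_sub (card_le_card h)]
  rw [e1, e2]
  have : (A ∩ S) \ (A ∩ S') ⊆ S \ S' := by
    intro a ha
    simp only [Finset.mem_sdiff, mem_inter] at ha ⊢
    exact ⟨ha.1.2, fun h5 => ha.2 ⟨ha.1.1, h5⟩⟩
  exact_mod_cast card_le_card this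

lemma az1 {a b c d : ℝ} (hc : 0 ≤ c) (h : a ≤ b) (h2 : 0 ≤ d) : c * (a * d) ≤ c * (b * d) :=
  mul_le_mul_of_nonneg_left (mul_le_mul_of_nonneg_right h h2) hc

/-- one window between `C t` and `t^(1+2a)` -/
lemma midZ (Q U z y : ℕ) (c : ℕ → ℕ → ℝ) (t L a C X : ℝ) (ht : 16 ≤ t) (hL : 1 ≤ L) (hC : 1 ≤ C) (hz1 : C * t ≤ z)
    (hzy : z ≤ y) (hyQ : y ≤ Q) (hlz : L ≤ Real.log z) (hQt : Real.log Q ≤ t)
    (hLt : L ≤ t) (hUz : (z : ℝ) ≤ U) (hR : ∑ p ∈ PQ y z, 1 / (p : ℝ) ≤ 8 * a)
    (hX : mP Q (fun n => max (ws Q c n) 0 * ((Sv U z n).card : ℝ)) ≤ X) :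
    mP Q (fun n => max (ws Q c n) 0 * ((Sv U z n).card : ℝ)) - mP Q (fun n => max (ws Q c n) 0 * ((Sv U y n).card : ℝ)) ≤
      24 * a * X + 768 / C * (U / L) * mP Q (fun n => |ws Q c n|) := by
  have hz16 : (16 : ℝ) ≤ z := by
    have := ay7 hC (show 0 < t by linarith)
    linarith
  have hz16' : 16 ≤ z := by exact_mod_cast hz16
  set b : ℕ := z / 2 with hb
  have hb2 : 2 * b ≤ z := by omega
  have hb3 : z ≤ 3 * b := by omega
  have hb3r : (z : ℝ) ≤ 3 * b := by exact_mod_cast hb3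
  have hb1 : 1 ≤ b := by omega
  have hb0 : (0 : ℝ) < b := by exact_mod_cast hb1
  have hz0 : (0 : ℝ) < z := by linarith
  have h := hxr Q U z y b (1 / 16) c (by omega) hzy hyQ hb1 hb2 (by norm_num) le_rfl
  set X1 := mP Q (fun n => max (ws Q c n) 0 * ((Sv U z n).card : ℝ)) with hX1
  set M := mP Q (fun n => |ws Q c n|) with hM
  set E := mP Q (fun n => max (ws Q c n) 0) with hE
  set F := mP Q (fun n => max (-ws Q c n) 0) with hF
  have hEF : E + F = M := by
    rw [hE, hF, hM, ← mP_add]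
    congr 1
    ext n
    exact (abs_split _).symm
  have hE0 : 0 ≤ E := mP_nonneg Q fun n => le_max_right _ _
  have hF0 : 0 ≤ F := mP_nonneg Q fun n => le_max_right _ _
  have hX10 : 0 ≤ X1 := mP_nonneg Q fun n => mul_nonneg (le_max_right _ _) (Nat.cast_nonneg _)
  have hX0 : 0 ≤ X := hX10.trans hX
  have hS0 : 0 ≤ ∑ p ∈ PQ y z, 1 / (p : ℝ) := sum_nonneg fun p _ => by positivity
  have ha0 : 0 ≤ a := by linarith
  refine h.trans (add_le_add ?_ ?_)
  · have e1 : (1 + 11 * (1 / 16 : ℝ) + 2 * ((b : ℝ) / z)) ≤ 3 := by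
      have : (b : ℝ) / z ≤ 1 / 2 := by
        rw [div_le_iff₀ hz0]
        have : (2 : ℝ) * b ≤ z := by exact_mod_cast hb2
        linarith
      linarith
    have e2 : (0 : ℝ) ≤ 1 + 11 * (1 / 16 : ℝ) + 2 * ((b : ℝ) / z) := by positivity
    calc (1 + 11 * (1 / 16 : ℝ) + 2 * ((b : ℝ) / z)) * (∑ p ∈ PQ y z, 1 / (p : ℝ)) * X1 ≤ (3 * (8 * a)) * X := by
          apply mul_le_mul _ hX hX10 (by positivity)
          exact mul_le_mul e1 hR hS0 (by norm_num)
      _ = 24 * a * X := by ring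
  · have hL0 : 0 < L := by linarith
    have ht0 : 0 < t := by linarith
    have hUr : (0 : ℝ) ≤ U := Nat.cast_nonneg _
    have e1 : (U : ℝ) / b + 1 ≤ 4 * (U / (C * t)) := by
      have b1 : (U : ℝ) / b ≤ 3 * (U / z) := by
        rw [div_le_iff₀ hb0]
        have b2 : 3 * ((U : ℝ) / z) * b = (U : ℝ) * (3 * b) / z := by ring
        rw [b2, le_div_iff₀ hz0]
        exact mul_le_mul_of_nonneg_left hb3r hUr
      have b3 : 1 ≤ (U : ℝ) / z := by
        rw [le_div_iff₀ hz0]
        linarith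
      have b4 : (U : ℝ) / z ≤ U / (C * t) := div_le_div_of_nonneg_left hUr (by positivity) hz1
      linarith
    have e2 : 2 * (Real.log Q / Real.log z) * E + F ≤ 3 * (t / L) * M := by
      have b1 : Real.log Q / Real.log z ≤ t / L :=
        div_le_div₀ ht0.le hQt hL0 hlz
      have b2 : 1 ≤ t / L := by
        rw [le_div_iff₀ hL0]
        linarith
      calc 2 * (Real.log Q / Real.log z) * E + F ≤ 2 * (t / L) * E + 1 * F := by
            have := mul_le_mul_of_nonneg_right b1 hE0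
            linarith
        _ ≤ 3 * (t / L) * E + 3 * (t / L) * F := by
            apply add_le_add
            · apply mul_le_mul_of_nonneg_right _ hE0
              linarith
            · apply mul_le_mul_of_nonneg_right _ hF0
              linarith
        _ = 3 * (t / L) * M := by
            rw [← hEF]
            ring
    have e4 : 0 ≤ 2 * (Real.log Q / Real.log z) * E + F := by
      have b1 : 0 ≤ Real.log Q := Real.log_natCast_nonneg Q
      have b2 : 0 ≤ Real.log z := Real.log_natCast_nonneg z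
      positivity
    calc ((U : ℝ) / b + 1) * ((2 * (Real.log Q / Real.log z) * E + F) / (1 / 16)) =
          ((U : ℝ) / b + 1) * (16 * (2 * (Real.log Q / Real.log z) * E + F)) := by ring
      _ ≤ (4 * (U / (C * t))) * (16 * (3 * (t / L) * M)) := by
          apply mul_le_mul e1 _ (by positivity) (by positivity)
          linarith
      _ = 192 / C * (U / L) * M := by
          field_simp
          ring
      _ ≤ 768 / C * (U / L) * M := by
          have hM0 : 0 ≤ M := by linarith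
          apply mul_le_mul_of_nonneg_right _ hM0
          apply mul_le_mul_of_nonneg_right _ (by positivity)
          apply div_le_div_of_nonneg_right (by norm_num) (by linarith)

end Pool.Agent.H301.SY
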