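import Pool.Agent.H301.SY.FinZ

/-! The formula for the positive part of a real function, short windows: conclusion. -/

set_option autoImplicit false

namespace Pool.Agent.H301.SY

open Finset Filter Topology
open Pool.Agent.Y829 (HS Sf mem_HS V V_insert)
open Pool.Agent.N422.NW Pool.Agent.N422.LR Pool.Agent.N422.LG Pool.Agent.N422.SL Pool.Agent.N422.WS
open Pool.Agent.H301.SX (V_split VV_eq V_pos Sv_eq HS_mono upW sand2 short ay4 ay7 ay8 ay9 ay10 V_ge V_le_one)

/-- the algebra of the conclusion -/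
lemma algZ {XQ Xy XT vQ vy vT ε θ a K Cs u L M η : ℝ} (hvQ : 0 < vQ) (hvy : 0 < vy) (hvT : 0 < vT) (hL : 0 < L)
    (hu : 0 ≤ u) (hM : 0 ≤ M) (hε : 0 ≤ ε) (hCs : 0 ≤ Cs)
    (h1 : |XQ - vQ / vy * Xy| ≤ ε * (vQ / vy * Xy) + ε * (u * vQ) * M)
    (h2 : Xy ≤ XT) (h3 : XT - Xy ≤ θ * (u / L) * M) (h4 : XT ≤ Cs * (u / L) * M) (h0 : 0 ≤ Xy)
    (hK : 1 / vy ≤ 3 * K * L) (hV : vT - vy ≤ 8 * a * vT) (hV2 : vy ≤ vT)
    (hη : ε * (3 * K * Cs) + ε + 3 * K * θ + 24 * a * K * Cs ≤ η) :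
    |XQ / vQ - XT / vT| ≤ η * u * M := by
  have hK0 : 0 ≤ 3 * K * L := le_trans (by positivity) hK
  have hKL : 0 ≤ K := by
    by_contra h
    push Not at h
    have : 3 * K * L < 0 := by nlinarith
    linarith
  have e1 : |XQ / vQ - Xy / vy| ≤ ε * (Xy / vy) + ε * u * M := by
    have b1 : XQ / vQ - Xy / vy = (XQ - vQ / vy * Xy) / vQ := by field_simp
    rw [b1, abs_div, abs_of_pos hvQ, div_le_iff₀ hvQ]
    have b2 : (ε * (Xy / vy) + ε * u * M) * vQ = ε * (vQ / vy * Xy) + ε * (u * vQ) * M := by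
      field_simp
    rw [b2]
    exact h1
  have hXT0 : 0 ≤ XT := h0.trans h2
  have e2 : Xy / vy ≤ 3 * K * Cs * (u * M) := by
    calc Xy / vy = Xy * (1 / vy) := by ring
      _ ≤ (Cs * (u / L) * M) * (3 * K * L) := mul_le_mul (h2.trans h4) hK (by positivity) (by positivity)
      _ = 3 * K * Cs * (u * M) := by field_simp
  have e3 : |Xy / vy - XT / vT| ≤ 3 * K * θ * (u * M) + 24 * a * K * Cs * (u * M) := by
    have b1 : Xy / vy - XT / vT = XT * (1 / vy - 1 / vT) - (XT - Xy) * (1 / vy) := by ring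
    have b2 : 0 ≤ 1 / vy - 1 / vT := by
      have := one_div_le_one_div_of_le hvy hV2
      linarith
    have b3 : 1 / vy - 1 / vT ≤ 8 * a * (3 * K * L) := by
      have c1 : 1 / vy - 1 / vT = (vT - vy) / vT * (1 / vy) := by field_simp
      have c2 : (vT - vy) / vT ≤ 8 * a := by
        rw [div_le_iff₀ hvT]
        exact hV
      have c3 : 0 ≤ (vT - vy) / vT := div_nonneg (by linarith) hvT.le
      rw [c1]
      exact mul_le_mul c2 hK (by positivity) (by linarith)
    have b4 : 0 ≤ XT * (1 / vy - 1 / vT) := mul_nonneg hXT0 b2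
    have b5 : XT * (1 / vy - 1 / vT) ≤ 24 * a * K * Cs * (u * M) := by
      calc XT * (1 / vy - 1 / vT) ≤ (Cs * (u / L) * M) * (8 * a * (3 * K * L)) :=
            mul_le_mul h4 b3 b2 (by positivity)
        _ = 24 * a * K * Cs * (u * M) := by
            field_simp
            ring
    have b6 : 0 ≤ (XT - Xy) * (1 / vy) := mul_nonneg (by linarith) (by positivity)
    have b7 : (XT - Xy) * (1 / vy) ≤ 3 * K * θ * (u * M) := by
      calc (XT - Xy) * (1 / vy) ≤ (θ * (u / L) * M) * (3 * K * L) :=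
            mul_le_mul h3 hK (by positivity) (by linarith)
        _ = 3 * K * θ * (u * M) := by field_simp
    rw [b1, abs_le]
    constructor <;> linarith
  have e4 : |XQ / vQ - XT / vT| ≤ |XQ / vQ - Xy / vy| + |Xy / vy - XT / vT| := abs_sub_le _ _ _
  have e5 : ε * (Xy / vy) ≤ ε * (3 * K * Cs * (u * M)) := mul_le_mul_of_nonneg_left e2 hε
  have e6 := mul_le_mul_of_nonneg_right hη (mul_nonneg hu hM)
  calc |XQ / vQ - XT / vT| ≤ (ε * (3 * K * Cs) + ε + 3 * K * θ + 24 * a * K * Cs) * (u * M) := by linarith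
    _ ≤ η * u * M := by
        rw [mul_assoc η u M]
        exact e6

/-- short windows -/
theorem shortZ (η : ℝ) (hη : 0 < η) : ∃ B a : ℝ, 1 ≤ B ∧ 0 < a ∧ ∀ᶠ t : ℝ in atTop, ∀ Q : ℕ, Real.log Q = t →
    ∀ U : ℕ, B * (t * Real.log t) ≤ U → (U : ℝ) ≤ t ^ (1 + a) → ∀ (c : ℕ → ℕ → ℝ) (A : ℕ → Finset ℕ),
    (∀ n, A n ⊆ Icc 1 U) → (∀ n, A (n + PP ⌊t⌋₊) = A n) →
    |mP Q (fun n => max (ws Q c n) 0 * ((A n ∩ Sv U Q n).card : ℝ)) / VV Q -
      mP Q (fun n => max (ws Q c n) 0 * ((A n ∩ Sv U ⌊t⌋₊ n).card : ℝ)) / VV ⌊t⌋₊| ≤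
      η * U * mP Q (fun n => |ws Q c n|) := by
  classical
  obtain ⟨K, hK, hM⟩ := t_MERB2
  obtain ⟨Cs, hCs, hup⟩ := upW (1 / 2) (by norm_num) (by norm_num)
  have hK0 : 0 < K := by linarith
  set a : ℝ := min (1 / 4) (η / (8 * (96 * K * Cs))) with ha
  have ha0 : 0 < a := lt_min (by norm_num) (by positivity)
  have ha1 : a ≤ 1 / 4 := min_le_left _ _
  have haη : 96 * K * Cs * a ≤ η / 8 := by
    have h1 : a ≤ η / (8 * (96 * K * Cs)) := min_le_right _ _
    calc 96 * K * Cs * a ≤ 96 * K * Cs * (η / (8 * (96 * K * Cs))) := mul_le_mul_of_nonneg_left h1 (by positivity)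
      _ = η / 8 := by
        field_simp
  set C : ℝ := max 1 (8 * (2304 * K) / η) with hC
  have hC1 : 1 ≤ C := le_max_left _ _
  have hC0 : 0 < C := by linarith
  have hCη : 2304 * K / C ≤ η / 8 := by
    have h1 : 8 * (2304 * K) / η ≤ C := le_max_right _ _
    rw [div_le_iff₀ hη] at h1
    rw [div_le_iff₀ hC0]
    linarith
  set κ : ℝ := η / (24 * K) with hκ
  have hκ0 : 0 < κ := by positivity
  have hκη : 3 * K * κ = η / 8 := by
    rw [hκ]
    field_simp
    norm_num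
  set ε : ℝ := η / (8 * (3 * K * Cs + 1)) with hε
  have hε0 : 0 < ε := by positivity
  have hεη : (3 * K * Cs + 1) * ε = η / 8 := by
    rw [hε]
    field_simp
  obtain ⟨σ, hσ, hs2⟩ := sand2 C hC1 κ hκ0
  obtain ⟨B1, hB1, hseq⟩ := seqQz a ha0 (by linarith) ε hε0
  refine ⟨max B1 1, a, le_max_right _ _, ha0, ?_⟩
  have hl : Tendsto Real.log atTop atTop := Real.tendsto_log_atTop
  filter_upwards [hup, hs2, hseq, short (2 * a) (by positivity) (by linarith), eventually_ge_atTop (16 : ℝ),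
    hl.eventually_ge_atTop (2 * C), (tendsto_rpow_atTop (show 0 < 2 * a by positivity)).eventually_ge_atTop (2 * C)]
    with t ht1 ht2 hts ht3 ht4 ht5 ht6
  intro Q hQt U hU hUa c A hAU hAper
  have ht0 : (0 : ℝ) < t := by linarith
  set L := Real.log t with hL
  have hL2 : 2 ≤ L := by linarith
  have hL0 : 0 < L := by linarith
  have hLt : L ≤ t := by
    have := Real.log_le_sub_one_of_pos ht0
    linarith
  set T := ⌊t⌋₊ with hT
  set T0 := ⌊t / 1000⌋₊ with hT0
  set y := ⌈t ^ (1 + 2 * a)⌉₊ with hy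
  set z := ⌈C * t⌉₊ with hz
  have hTt : (T : ℝ) ≤ t := Nat.floor_le ht0.le
  have hzt : C * t ≤ (z : ℝ) := Nat.le_ceil _
  have hzt2 : (z : ℝ) < C * t + 1 := Nat.ceil_lt_add_one (by positivity)
  have hCt : t ≤ C * t := ay7 hC1 ht0
  have hyt : t ^ (1 + 2 * a) ≤ (y : ℝ) := Nat.le_ceil _
  have hyt2 : (y : ℝ) < t ^ (1 + 2 * a) + 1 := Nat.ceil_lt_add_one (Real.rpow_nonneg ht0.le _)
  have hzy : z ≤ y := by
    apply Nat.ceil_le_ceil
    have e1 : t ^ (1 + 2 * a) = t * t ^ (2 * a) := by rw [Real.rpow_add ht0, Real.rpow_one]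
    rw [e1]
    exact ay8 ht6 hC1 ht0
  have hTz : T ≤ z := by
    have : (T : ℝ) ≤ z := by linarith
    exact_mod_cast this
  have hT0T : T0 ≤ T := by
    apply Nat.floor_le_floor
    linarith
  have hTy : T ≤ y := hTz.trans hzy
  have hz16 : (16 : ℝ) ≤ z := by linarith
  have hy2 : 2 ≤ y := by
    have h1 : (z : ℝ) ≤ y := by exact_mod_cast hzy
    have : (2 : ℝ) ≤ y := by linarith
    exact_mod_cast this
  have hUr : (0 : ℝ) ≤ U := Nat.cast_nonneg _
  have htL : 0 < t * L := by positivity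
  have hUB1 : B1 * (t * L) ≤ U := (mul_le_mul_of_nonneg_right (le_max_left _ _) htL.le).trans hU
  have hU1 : t * L ≤ U := by
    have := (mul_le_mul_of_nonneg_right (le_max_right B1 1) htL.le).trans hU
    linarith
  have hUt : t ≤ U := ay9 ht0 (by linarith) hU1
  have hzU : (z : ℝ) ≤ U := ay10 (by linarith) hC1 ht5 hU1 hzt2
  obtain ⟨hyQ, hsq⟩ := hts Q (by rw [hQt]; linarith) hQt.le U hUB1 hUa c T A hTy hAU hAper
  -- the reciprocals
  have hRD : RECD y T ≤ 8 * a := by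
    have e1 := RECD_add hT0T hTy
    have e2 := RECD_nonneg T T0
    have e3 := ht3.2
    linarith
  have hRDz : RECD y z ≤ 8 * a := by
    have e1 := RECD_add hTz hzy
    have e2 := RECD_nonneg z T
    linarith
  -- the densities
  have hVQ0 : 0 < VV Q := MERB_pos Q
  have hVy0 : 0 < VV y := MERB_pos y
  have hVT0 : 0 < VV T := MERB_pos T
  have hVs : V (PQ y T) * VV T = VV y := V_split hTy
  have hPQp : ∀ p ∈ PQ y T, p.Prime := by
    intro p hp
    unfold PQ at hp
    exact (mem_filter.1 hp).2.1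
  have hV1 : 1 - 8 * a ≤ V (PQ y T) := by
    have h1 := V_ge (PQ y T) hPQp
    have h2 : ∑ p ∈ PQ y T, 1 / (p : ℝ) = RECD y T := rfl
    rw [h2] at h1
    linarith
  have hV2 : V (PQ y T) ≤ 1 := V_le_one _ hPQp
  have hVyT : VV y ≤ VV T := by
    rw [← hVs]
    exact mul_le_of_le_one_left hVT0.le hV2
  have hVyT2 : VV T - VV y ≤ 8 * a * VV T := by
    have := mul_le_mul_of_nonneg_right hV1 hVT0.le
    rw [hVs] at this
    linarith
  have hly : Real.log y ≤ 3 * L := by
    have h1 : (y : ℝ) ≤ 2 * t ^ (1 + 2 * a) := by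
      have : 1 ≤ t ^ (1 + 2 * a) := Real.one_le_rpow (by linarith) (by linarith)
      linarith
    have hy0 : (0 : ℝ) < y := by
      have : (2 : ℝ) ≤ y := by exact_mod_cast hy2
      linarith
    have h2 : Real.log y ≤ Real.log (2 * t ^ (1 + 2 * a)) := Real.log_le_log hy0 h1
    rw [Real.log_mul (by norm_num) (by positivity), Real.log_rpow ht0] at h2
    have h3 : Real.log 2 ≤ 1 := by
      have := Real.log_two_lt_d9
      linarith
    exact ay4 h2 h3 (by linarith) (by linarith)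
  have hVy3 : 1 / VV y ≤ 3 * K * L := by
    have h1 := (hM y y hy2 le_rfl).2.2.1
    have hly0 : 0 < Real.log y := by
      apply Real.log_pos
      have : (2 : ℝ) ≤ y := by exact_mod_cast hy2
      linarith
    rw [div_le_iff₀ (by positivity)] at h1
    rw [div_le_iff₀ hVy0]
    have h3 : VV y * (K * Real.log y) ≤ VV y * (K * (3 * L)) := by
      apply mul_le_mul_of_nonneg_left _ hVy0.le
      exact mul_le_mul_of_nonneg_left hly (by linarith)
    linarith
  -- pointwise bounds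
  set PW : Finset ℕ := (Icc 1 T).filter Nat.Prime with hPW
  have hPW1 : ∀ p ∈ PW, p.Prime ∧ (p : ℝ) ≤ t := by
    intro p hp
    rw [hPW, mem_filter, mem_Icc] at hp
    have h1 : (p : ℝ) ≤ T := by exact_mod_cast hp.1.2
    exact ⟨hp.2, by linarith⟩
  have hemp : ∀ q : ℕ → Prop, ∀ [DecidablePred q], (∀ p, q p → p ∉ PW) →
      (Icc 1 T0).filter (fun p => p.Prime ∧ q p) = ∅ := by
    intro q _ hq
    apply filter_false_of_mem
    rintro p hp ⟨h1, h2⟩
    apply hq p h2
    rw [hPW, mem_filter, mem_Icc]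
    rw [mem_Icc] at hp
    exact ⟨⟨hp.1, hp.2.trans hT0T⟩, h1⟩
  have hsum1 : ∑ p ∈ (Icc 1 T0).filter (fun p => p.Prime ∧ p ∉ PW), 1 / (p : ℝ) = 0 := by
    rw [hemp (fun p => p ∉ PW) (fun p h => h), sum_empty]
  have hsum2 : ∑ p ∈ (Icc 1 T0).filter (fun p => p.Prime ∧ p ∉ PW ∧ t ^ (1 / 2 : ℝ) < p), 1 / (p : ℝ) = 0 := by
    rw [hemp (fun p => p ∉ PW ∧ t ^ (1 / 2 : ℝ) < p) (fun p h => h.1), sum_empty]
  have hSfT : ∀ n, Sf PW n U = ((Sv U T n).card : ℝ) := by
    intro n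
    rw [Sv_eq]
    rfl
  have hpt := ht2 U hU1 PW hPW1 (by rw [hsum1]; exact hσ.le) (by rw [hsum2]; positivity)
  have hptU : ∀ n, ((Sv U T n).card : ℝ) ≤ Cs * (U / L) := by
    intro n
    rw [← hSfT]
    exact ht1 PW (fun p hp => (hPW1 p hp).1) (by rw [hsum1]; norm_num) U (by
      have : t ^ (2 * (1 / 2) : ℝ) = t := by norm_num
      rw [this]
      exact hUt) n
  -- the means
  set M := mP Q (fun n => |ws Q c n|) with hMd
  have hM0 : 0 ≤ M := mP_nonneg Q fun n => abs_nonneg _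
  set E := mP Q (fun n => max (ws Q c n) 0) with hE
  have hEM : E ≤ M := FX_mono Q fun n => by
    rw [abs_split]
    have := le_max_right (-ws Q c n) 0
    linarith
  have hw : ∀ n, 0 ≤ max (ws Q c n) 0 := fun n => le_max_right _ _
  have hconst : ∀ (x : ℝ), mP Q (fun n => max (ws Q c n) 0 * x) = x * E := by
    intro x
    rw [hE, ← FX_smul]
    congr 1
    ext n
    ring
  have hUL : 0 ≤ (U : ℝ) / L := by positivity
  have hSzC : mP Q (fun n => max (ws Q c n) 0 * ((Sv U z n).card : ℝ)) ≤ Cs * (U / L) * M := by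
    calc mP Q (fun n => max (ws Q c n) 0 * ((Sv U z n).card : ℝ)) ≤
          mP Q (fun n => max (ws Q c n) 0 * (Cs * (U / L))) := by
          apply FX_mono
          intro n
          apply mul_le_mul_of_nonneg_left _ (hw n)
          refine le_trans ?_ (hptU n)
          exact_mod_cast card_le_card (Sv_sub hTz U n)
      _ = Cs * (U / L) * E := hconst _
      _ ≤ Cs * (U / L) * M := mul_le_mul_of_nonneg_left hEM (by positivity)
  have hlz : L ≤ Real.log z := Real.log_le_log ht0 (by linarith)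
  have hmid := midZ Q U z y c t L a C (Cs * (U / L) * M) ht4 (by linarith) hC1 hzt hzy hyQ hlz hQt.le hLt hzU
    hRDz hSzC
  set XT := mP Q (fun n => max (ws Q c n) 0 * ((A n ∩ Sv U T n).card : ℝ)) with hXT
  set Xz := mP Q (fun n => max (ws Q c n) 0 * ((A n ∩ Sv U z n).card : ℝ)) with hXz
  set Xy := mP Q (fun n => max (ws Q c n) 0 * ((A n ∩ Sv U y n).card : ℝ)) with hXy
  have hXy0 : 0 ≤ Xy := mP_nonneg Q (fun n => mul_nonneg (hw n) (Nat.cast_nonneg _))
  have hXyT : Xy ≤ XT := FX_mono Q fun n =>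
    mul_le_mul_of_nonneg_left (inter_loss (Sv_sub hTy U n) (A n)).1 (hw n)
  have hXTC : XT ≤ Cs * (U / L) * M := by
    calc XT ≤ mP Q (fun n => max (ws Q c n) 0 * (Cs * (U / L))) := by
          apply FX_mono
          intro n
          apply mul_le_mul_of_nonneg_left _ (hw n)
          refine le_trans ?_ (hptU n)
          exact_mod_cast card_le_card inter_subset_right
      _ = Cs * (U / L) * E := hconst _
      _ ≤ Cs * (U / L) * M := mul_le_mul_of_nonneg_left hEM (by positivity)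
  have hXTz : XT - Xz ≤ κ * (U / L) * M := by
    have h1 : XT - Xz ≤ mP Q (fun n => max (ws Q c n) 0 * (κ * (U / L))) := by
      rw [hXT, hXz, ← mP_sub]
      apply FX_mono
      intro n
      rw [← mul_sub]
      apply mul_le_mul_of_nonneg_left _ (hw n)
      have h2 := (inter_loss (Sv_sub hTz U n) (A n)).2
      have h3 := (hpt n).2
      rw [hSfT] at h3
      linarith
    rw [hconst] at h1
    exact h1.trans (mul_le_mul_of_nonneg_left hEM (by positivity))
  have hXzy : Xz - Xy ≤ mP Q (fun n => max (ws Q c n) 0 * ((Sv U z n).card : ℝ)) -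
      mP Q (fun n => max (ws Q c n) 0 * ((Sv U y n).card : ℝ)) := by
    rw [hXz, hXy, ← mP_sub, ← mP_sub]
    apply FX_mono
    intro n
    rw [← mul_sub, ← mul_sub]
    exact mul_le_mul_of_nonneg_left (inter_loss (Sv_sub hzy U n) (A n)).2 (hw n)
  refine algZ (ε := ε) (θ := κ + 24 * a * Cs + 768 / C) (a := a) (K := K) (Cs := Cs) (L := L) hVQ0 hVy0 hVT0 hL0
    hUr hM0 hε0.le hCs.le hsq hXyT ?_ hXTC hXy0 hVy3 hVyT2 hVyT ?_
  · have e1 : (κ + 24 * a * Cs + 768 / C) * (U / L) * M = κ * (U / L) * M + 24 * a * (Cs * (U / L) * M) +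
        768 / C * (U / L) * M := by ring
    rw [e1]
    linarith
  · have e1 : ε * (3 * K * Cs) + ε + 3 * K * (κ + 24 * a * Cs + 768 / C) + 24 * a * K * Cs =
        (3 * K * Cs + 1) * ε + 3 * K * κ + 96 * K * Cs * a + 2304 * K / C := by ring
    rw [e1, hεη, hκη]
    linarith

end Pool.Agent.H301.SY
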