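import Pool.Agent.H301.SX.Seq
import Pool.Agent.H301.SV.All

/-! The kernel which adds hits, on the space of the residues, and the hits under the positive part of a real function. -/

set_option autoImplicit false

open Finset

namespace Pool.Agent.H301.SY

open Pool.Agent.N422.NW Pool.Agent.N422.LR Pool.Agent.N422.WS

/-- the local kernel: with rate `r`, the place is moved to a class which hits a site alive -/
noncomputable def kz1 {K : Type} [Field K] {N k : ℕ} {q : Fin N → ℕ} (σ : (i : Fin N) → Fin (q i) → Option (Fin k))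
    (r : Fin N → K) (x : Xs q) (i : Fin N) (c : Fin (q i)) : K :=
  (1 - ((al σ x i).card : K) * r i / (q i : K)) * (if c = x i then 1 else 0) +
    r i / (q i : K) * (if Hit (al σ x i) (σ i c) then 1 else 0)

/-- the kernel -/
noncomputable def kz {K : Type} [Field K] {N k : ℕ} {q : Fin N → ℕ} (σ : (i : Fin N) → Fin (q i) → Option (Fin k))
    (r : Fin N → K) (x x' : Xs q) : K := ∏ i : Fin N, kz1 σ r x i (x' i)

/-- the density -/
noncomputable def phz {N k : ℕ} {q : Fin N → ℕ} (σ : (i : Fin N) → Fin (q i) → Option (Fin k)) (r : Fin N → ℝ)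
    (x : Xs q) : ℝ :=
  ∏ i : Fin N, (if Hit (al σ x i) (σ i (x i)) then 1 - r i else 1) / (1 - ((al σ x i).card : ℝ) * r i / (q i : ℝ))

/-- the number of the classes which hit a set of sites -/
lemma hit_card {k m : ℕ} (τ : Fin m → Option (Fin k))
    (h1 : ∀ a : Fin k, (univ.filter (fun u => τ u = some a)).card = 1) (s : Finset (Fin k)) :
    (univ.filter (fun c : Fin m => Hit s (τ c))).card = s.card := by
  have e : univ.filter (fun c : Fin m => Hit s (τ c)) =
      s.biUnion (fun a => univ.filter (fun c => τ c = some a)) := by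
    ext c
    constructor
    · intro h
      rw [mem_filter] at h
      obtain ⟨a, ha, hc⟩ := h.2
      exact mem_biUnion.mpr ⟨a, ha, mem_filter.mpr ⟨mem_univ _, hc⟩⟩
    · intro h
      rw [mem_biUnion] at h
      obtain ⟨a, ha, hc⟩ := h
      exact mem_filter.mpr ⟨mem_univ _, a, ha, (mem_filter.mp hc).2⟩
  rw [e, card_biUnion]
  · rw [Finset.sum_congr rfl (fun a _ => h1 a)]
    simp
  · intro a _ b _ hab
    rw [Function.onFun, Finset.disjoint_left]
    intro c hc hc'
    rw [mem_filter] at hc hc'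
    apply hab
    exact Option.some.inj (hc.2.symm.trans hc'.2)

lemma hit_sum {K : Type} [Field K] {k m : ℕ} (τ : Fin m → Option (Fin k))
    (h1 : ∀ a : Fin k, (univ.filter (fun u => τ u = some a)).card = 1) (s : Finset (Fin k)) :
    ∑ c : Fin m, (if Hit s (τ c) then (1 : K) else 0) = (s.card : K) := by
  rw [← Finset.sum_filter, Finset.sum_const, hit_card τ h1, nsmul_eq_mul, mul_one]

theorem PZ_sum1 {K : Type} [Field K] {N k : ℕ} {q : Fin N → ℕ}
    (σ : (i : Fin N) → Fin (q i) → Option (Fin k)) (h1 : One σ)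
    (r : Fin N → K) (x : Xs q) (i : Fin N) : ∑ c : Fin (q i), kz1 σ r x i c = 1 := by
  unfold kz1
  rw [Finset.sum_add_distrib, ← Finset.mul_sum, ← Finset.mul_sum, Finset.sum_ite_eq',
    if_pos (Finset.mem_univ _), hit_sum (σ i) (h1 i)]
  ring

/-- the kernel on functions which depend only on `S` -/
theorem PZ_ker {K : Type} [Field K] {N k : ℕ} {q : Fin N → ℕ}
    (σ : (i : Fin N) → Fin (q i) → Option (Fin k)) (h1 : One σ)
    (r : Fin N → K) (x : Xs q) (S : Finset (Fin N)) (g : Xs q → K)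
    (hg : ∀ y y' : Xs q, (∀ i ∈ S, y i = y' i) → g y = g y') :
    ∑ x', kz σ r x x' * g x' = ∑ δ ∈ Fintype.piFinset
        (fun i => if i ∈ S then (univ : Finset (Fin (q i))) else {x i}),
      g δ * ∏ i ∈ S, kz1 σ r x i (δ i) := by
  classical
  obtain ⟨D, hD⟩ : ∃ D : Finset (Xs q), D = Fintype.piFinset
    (fun i => if i ∈ S then (univ : Finset (Fin (q i))) else {x i}) := ⟨_, rfl⟩
  rw [← hD]
  have h2 : ∀ y : Xs q, g y = ∑ δ ∈ D, g δ * ∏ i, (if i ∈ S then (if y i = δ i then (1 : K) else 0)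
      else 1) := by
    intro y
    obtain ⟨δ0, hδ0⟩ : ∃ δ0 : Xs q, δ0 = fun i => if i ∈ S then y i else x i := ⟨_, rfl⟩
    have hδD : δ0 ∈ D := by
      rw [hD, Fintype.mem_piFinset]
      intro i
      by_cases hi : i ∈ S
      · rw [if_pos hi]; exact Finset.mem_univ _
      · rw [if_neg hi, hδ0, Finset.mem_singleton]
        simp only [if_neg hi]
    rw [Finset.sum_eq_single_of_mem δ0 hδD]
    · have e1 : g y = g δ0 := by
        apply hg
        intro i hi
        rw [hδ0]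
        simp only [if_pos hi]
      rw [e1, Finset.prod_eq_one, mul_one]
      intro i _
      by_cases hi : i ∈ S
      · rw [if_pos hi, if_pos]
        rw [hδ0]
        simp only [if_pos hi]
      · rw [if_neg hi]
    · intro δ hδ hne
      have h2 : ∃ i ∈ S, y i ≠ δ i := by
        by_contra hcon
        push Not at hcon
        apply hne
        funext i
        rw [hδ0]
        by_cases hi : i ∈ S
        · simp only [if_pos hi]
          exact (hcon i hi).symm
        · simp only [if_neg hi]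
          rw [hD, Fintype.mem_piFinset] at hδ
          have h3 := hδ i
          rw [if_neg hi, Finset.mem_singleton] at h3
          exact h3
      obtain ⟨i, hi, hne'⟩ := h2
      rw [Finset.prod_eq_zero (Finset.mem_univ i), mul_zero]
      rw [if_pos hi, if_neg hne']
  have h3 : ∀ δ : Xs q, ∑ y : Xs q, (∏ i, kz1 σ r x i (y i)) *
      ∏ i, (if i ∈ S then (if y i = δ i then (1 : K) else 0) else 1) =
      ∏ i ∈ S, kz1 σ r x i (δ i) := by
    intro δ
    have h3 : ∀ y : Xs q, (∏ i, kz1 σ r x i (y i)) *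
        ∏ i, (if i ∈ S then (if y i = δ i then (1 : K) else 0) else 1) =
        ∏ i, (kz1 σ r x i (y i) * (if i ∈ S then (if y i = δ i then (1 : K) else 0) else 1)) :=
      fun y => Finset.prod_mul_distrib.symm
    have h4 := Finset.prod_univ_sum (fun i : Fin N => (univ : Finset (Fin (q i))))
      (fun i (c : Fin (q i)) => kz1 σ r x i c *
        (if i ∈ S then (if c = δ i then (1 : K) else 0) else 1))
    rw [Fintype.piFinset_univ] at h4
    rw [Finset.sum_congr rfl fun y _ => h3 y, ← h4]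
    have h5 : ∀ i, ∑ c : Fin (q i), kz1 σ r x i c *
        (if i ∈ S then (if c = δ i then (1 : K) else 0) else 1) =
        if i ∈ S then kz1 σ r x i (δ i) else 1 := by
      intro i
      by_cases hi : i ∈ S
      · simp only [if_pos hi, mul_ite, mul_one, mul_zero]
        rw [Finset.sum_ite_eq', if_pos (Finset.mem_univ _)]
      · simp only [if_neg hi, mul_one]
        exact PZ_sum1 σ h1 r x i
    rw [Finset.prod_congr rfl fun i _ => h5 i, Finset.prod_ite_mem, Finset.univ_inter]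
  unfold kz
  rw [Finset.sum_congr rfl fun y _ => by rw [h2 y, Finset.mul_sum], Finset.sum_comm]
  refine Finset.sum_congr rfl fun δ _ => ?_
  rw [← h3 δ, Finset.mul_sum]
  refine Finset.sum_congr rfl fun y _ => ?_
  ring

open Polynomial in
/-- the local factor -/
theorem PZ_loc {N k : ℕ} {q : Fin N → ℕ} (σ : (i : Fin N) → Fin (q i) → Option (Fin k))
    (c R : Fin N → ℝ) (ν : Fin N → ℕ) (x : Xs q) (i : Fin N)
    (u : Fin (q i)) : ∃ p : ℂ[X], ∀ z : ℂ, z ≠ 0 →
      p.eval z = z ^ ν i * kz1 σ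
        (fun i => (R i : ℂ) * ((c i : ℂ) - (z ^ ν i + (z⁻¹) ^ ν i) / 2)) x i u := by
  obtain ⟨a, ha⟩ : ∃ a : ℂ, a = if u = x i then 1 else 0 := ⟨_, rfl⟩
  obtain ⟨h, hh⟩ : ∃ h : ℂ, h = if Hit (al σ x i) (σ i u) then 1 else 0 := ⟨_, rfl⟩
  obtain ⟨b, hb⟩ : ∃ b : ℂ, b = (h - ((al σ x i).card : ℂ) * a) / (q i : ℂ) := ⟨_, rfl⟩
  refine ⟨C a * X ^ ν i + C (b * (R i : ℂ)) * (C (c i : ℂ) * X ^ ν i -
    C (1 / 2) * (X ^ (2 * ν i) + C 1)), ?_⟩
  intro z hz
  have h3 : z ^ ν i * (z⁻¹) ^ ν i = 1 := by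
    rw [← mul_pow, mul_inv_cancel₀ hz, one_pow]
  unfold kz1
  beta_reduce
  rw [← ha, ← hh]
  simp only [eval_add, eval_mul, eval_C, eval_pow, eval_X, eval_sub]
  obtain ⟨ρ, hρ⟩ : ∃ ρ : ℂ, ρ = (R i : ℂ) * ((c i : ℂ) - (z ^ ν i + (z⁻¹) ^ ν i) / 2) := ⟨_, rfl⟩
  rw [← hρ]
  have h4 : z ^ ν i * ((1 - ((al σ x i).card : ℂ) * ρ / (q i : ℂ)) * a + ρ / (q i : ℂ) * h) =
      a * z ^ ν i + b * (R i : ℂ) * ((c i : ℂ) * z ^ ν i -
        1 / 2 * (z ^ ν i * z ^ ν i + z ^ ν i * (z⁻¹) ^ ν i)) := by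
    rw [hρ, hb]
    ring
  rw [h4, h3, ← pow_add, ← two_mul]

theorem t_PZ (N k n : ℕ) (q : Fin N → ℕ) (σ : (i : Fin N) → Fin (q i) → Option (Fin k)) (ν : Fin N → ℕ)
    (f : Xs q → ℝ) (h1 : One σ) (hf : LevX ν n f) (c R : Fin N → ℝ) (x : Xs q) :
    ∃ P : Polynomial ℂ, ∀ z : ℂ, z ≠ 0 →
    P.eval z = z ^ n * ∑ x', kz σ (fun i => (R i : ℂ) * ((c i : ℂ) - (z ^ ν i + (z⁻¹) ^ ν i) / 2)) x x' *
      (f x' : ℂ) := by
  classical
  obtain ⟨m, S, g, hS, hg, hfg⟩ := hf
  choose p hp using fun (i : Fin N) (u : Fin (q i)) => PZ_loc σ c R ν x i u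
  refine ⟨∑ j : Fin m, ∑ δ ∈ Fintype.piFinset
        (fun i => if i ∈ S j then (univ : Finset (Fin (q i))) else {x i}),
      Polynomial.C (g j δ : ℂ) * (Polynomial.X ^ (n - ∑ i ∈ S j, ν i) *
        ∏ i ∈ S j, p i (δ i)), ?_⟩
  intro z hz
  have h2 : ∑ x', kz σ (fun i => (R i : ℂ) * ((c i : ℂ) - (z ^ ν i + (z⁻¹) ^ ν i) / 2)) x x' *
      (f x' : ℂ) = ∑ j : Fin m, ∑ x', kz σ
        (fun i => (R i : ℂ) * ((c i : ℂ) - (z ^ ν i + (z⁻¹) ^ ν i) / 2)) x x' * (g j x' : ℂ) := by
    rw [Finset.sum_comm]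
    refine Finset.sum_congr rfl fun x' _ => ?_
    rw [← Finset.mul_sum, hfg x']
    push_cast
    rfl
  rw [h2, Finset.mul_sum, Polynomial.eval_finsetSum]
  refine Finset.sum_congr rfl fun j _ => ?_
  rw [PZ_ker σ h1 _ x (S j) (fun x' => (g j x' : ℂ)) (fun y₁ y₂ h => by
    rw [hg j y₁ y₂ h]), Finset.mul_sum, Polynomial.eval_finsetSum]
  refine Finset.sum_congr rfl fun δ _ => ?_
  rw [Polynomial.eval_mul, Polynomial.eval_C, Polynomial.eval_mul, Polynomial.eval_pow,
    Polynomial.eval_X, Polynomial.eval_prod, Finset.prod_congr rfl fun i _ => hp i (δ i) z hz,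
    Finset.prod_mul_distrib, Finset.prod_pow_eq_pow_sum]
  have h3 : z ^ n = z ^ (n - ∑ i ∈ S j, ν i) * z ^ (∑ i ∈ S j, ν i) := by
    rw [← pow_add, Nat.sub_add_cancel (hS j)]
  rw [h3]
  ring

lemma zcoef {N k : ℕ} {q : Fin N → ℕ} (σ : (i : Fin N) → Fin (q i) → Option (Fin k))
    (hq : ∀ i, 2 * k ≤ q i ∧ 0 < q i) (r : Fin N → ℝ) (hr : ∀ i, 0 ≤ r i ∧ r i < 1) (x : Xs q) (i : Fin N) :
    0 < 1 - ((al σ x i).card : ℝ) * r i / (q i : ℝ) := by
  obtain ⟨g1, -, g3, -⟩ := NX_g hq σ x i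
  have h1 : ((al σ x i).card : ℝ) * r i / (q i : ℝ) = ((al σ x i).card : ℝ) / (q i : ℝ) * r i := by ring
  rw [h1]
  have h2 : ((al σ x i).card : ℝ) / (q i : ℝ) * r i ≤ 1 / 2 * 1 :=
    mul_le_mul g3 (hr i).2.le (hr i).1 (by norm_num)
  linarith

/-- the local computation -/
lemma KZ_local {k m : ℕ} (hm : 0 < m) (τ : Fin m → Option (Fin k))
    (h1 : ∀ a : Fin k, (univ.filter (fun u => τ u = some a)).card = 1) (s : Finset (Fin k))
    (r : ℝ) (hD : 0 < 1 - (s.card : ℝ) * r / (m : ℝ)) (c : Fin m) :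
    ∑ u, (if Hit s (τ u) then 1 - r else 1) / (1 - (s.card : ℝ) * r / (m : ℝ)) *
      ((1 - (s.card : ℝ) * r / (m : ℝ)) * (if c = u then 1 else 0) +
        r / (m : ℝ) * (if Hit s (τ c) then 1 else 0)) = 1 := by
  set D : ℝ := 1 - (s.card : ℝ) * r / (m : ℝ) with hDd
  have hm' : (0 : ℝ) < m := by exact_mod_cast hm
  have h2 : ∀ u, (if Hit s (τ u) then 1 - r else 1) / D *
      (D * (if c = u then 1 else 0) + r / (m : ℝ) * (if Hit s (τ c) then 1 else 0)) =
      (if c = u then (if Hit s (τ u) then 1 - r else 1) else 0) +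
      (r / (m : ℝ) * (if Hit s (τ c) then 1 else 0) / D) *
        (1 - r * (if Hit s (τ u) then 1 else 0)) := by
    intro u
    have h3 : D ≠ 0 := hD.ne'
    by_cases hc : c = u
    · simp only [if_pos hc]
      by_cases hu : Hit s (τ u)
      · simp only [if_pos hu]
        field_simp
      · simp only [if_neg hu]
        field_simp
        ring
    · simp only [if_neg hc]
      by_cases hu : Hit s (τ u)
      · simp only [if_pos hu]
        field_simp
        ring
      · simp only [if_neg hu]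
        field_simp
        ring
  rw [sum_congr rfl fun u _ => h2 u, sum_add_distrib, sum_ite_eq, if_pos (mem_univ _), ← mul_sum,
    sum_sub_distrib, ← mul_sum, hit_sum (K := ℝ) τ h1, sum_const, card_univ, Fintype.card_fin, nsmul_eq_mul, mul_one]
  have h4 : (m : ℝ) - r * (s.card : ℝ) = m * D := by
    rw [hDd]
    field_simp
  rw [h4]
  have h5 : r / (m : ℝ) * (if Hit s (τ c) then (1 : ℝ) else 0) / D * ((m : ℝ) * D) =
      r * (if Hit s (τ c) then (1 : ℝ) else 0) := by
    have h3 : D ≠ 0 := hD.ne'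
    field_simp
  rw [h5]
  by_cases h : Hit s (τ c)
  · rw [if_pos h, if_pos h]
    ring
  · rw [if_neg h, if_neg h]
    ring

theorem KZ_all {N k : ℕ} (q : Fin N → ℕ) (σ : (i : Fin N) → Fin (q i) → Option (Fin k)) (r : Fin N → ℝ)
    (hq : ∀ i, 2 * k ≤ q i ∧ 0 < q i) (hone : One σ) (hr : ∀ i, 0 ≤ r i ∧ r i < 1) :
    (∀ x x', 0 ≤ kz σ r x x') ∧ (∀ x, 0 < phz σ r x) ∧ (∀ x', ∑ x, phz σ r x * kz σ r x x' = 1) := by
  refine ⟨fun x x' => ?_, fun x => ?_, fun x' => ?_⟩
  · refine prod_nonneg fun i _ => ?_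
    unfold kz1
    have h1 := (zcoef σ hq r hr x i).le
    have h2 : 0 ≤ r i / (q i : ℝ) := div_nonneg (hr i).1 (Nat.cast_nonneg _)
    refine add_nonneg (mul_nonneg h1 ?_) (mul_nonneg h2 ?_)
    · split_ifs <;> norm_num
    · split_ifs <;> norm_num
  · refine prod_pos fun i _ => ?_
    have h1 := zcoef σ hq r hr x i
    apply div_pos _ h1
    split_ifs
    · linarith [(hr i).2]
    · norm_num
  · have h2 := KX_key N q (fun i x c =>
      ((if Hit (al σ x i) (σ i c) then 1 - r i else 1) / (1 - ((al σ x i).card : ℝ) * r i / (q i : ℝ))) *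
      ((1 - ((al σ x i).card : ℝ) * r i / (q i : ℝ)) * (if x' i = c then 1 else 0) +
        r i / (q i : ℝ) * (if Hit (al σ x i) (σ i (x' i)) then 1 else 0)))
      (fun _ => 1) (fun i => (hq i).2) ?_ ?_
    · rw [prod_const_one] at h2
      rw [← h2]
      refine sum_congr rfl fun x _ => ?_
      unfold phz kz kz1
      rw [← prod_mul_distrib]
    · intro i g g' c h
      have ha : al σ g i = al σ g' i := by
        unfold al
        ext a
        simp only [mem_filter, mem_univ, true_and]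
        constructor
        · intro h3 j hj
          rw [← h j hj]
          exact h3 j hj
        · intro h3 j hj
          rw [h j hj]
          exact h3 j hj
      simp only [ha]
    · intro i g
      exact KZ_local (hq i).2 (σ i) (hone i) (al σ g i) (r i) (zcoef σ hq r hr g i) (x' i)

theorem KZ_cast {N k : ℕ} {q : Fin N → ℕ} (σ : (i : Fin N) → Fin (q i) → Option (Fin k)) (r : Fin N → ℝ)
    (x x' : Xs q) : kz σ (fun i => (r i : ℂ)) x x' = ((kz σ r x x' : ℝ) : ℂ) := by
  unfold kz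
  rw [Complex.ofReal_prod]
  apply Finset.prod_congr rfl
  intro i _
  unfold kz1
  split_ifs <;> push_cast <;> ring

theorem KZ_zero {N k : ℕ} {q : Fin N → ℕ} (σ : (i : Fin N) → Fin (q i) → Option (Fin k)) (x x' : Xs q) :
    kz σ (fun _ => (0 : ℂ)) x x' = if x' = x then 1 else 0 := by
  unfold kz kz1
  have h1 : ∀ i : Fin N, (1 - ((al σ x i).card : ℂ) * 0 / (q i : ℂ)) * (if x' i = x i then 1 else 0) +
      0 / (q i : ℂ) * (if Hit (al σ x i) (σ i (x' i)) then 1 else 0) = if x' i = x i then 1 else 0 := by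
    intro i
    split_ifs <;> simp
  rw [prod_congr rfl fun i _ => h1 i]
  by_cases h : x' = x
  · rw [if_pos h, prod_eq_one]
    intro i _
    rw [if_pos (congrFun h i)]
  · rw [if_neg h]
    obtain ⟨i, hi⟩ := Function.ne_iff.1 h
    exact prod_eq_zero (mem_univ i) (if_neg hi)

theorem KZ_log {N k : ℕ} {q : Fin N → ℕ} (σ : (i : Fin N) → Fin (q i) → Option (Fin k))
    (hq : ∀ i, 2 * k ≤ q i ∧ 0 < q i) (r : Fin N → ℝ) (hr : ∀ i, 0 ≤ r i ∧ r i ≤ 1 / 3) (x : Xs q) :
    ∑ i : Fin N, (((al σ x i).card : ℝ) * r i / (q i : ℝ) -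
      (if Hit (al σ x i) (σ i (x i)) then r i + r i ^ 2 else 0)) ≤ Real.log (phz σ r x) := by
  have hr1 : ∀ i, 0 ≤ r i ∧ r i < 1 := fun i => ⟨(hr i).1, by linarith [(hr i).2]⟩
  unfold phz
  rw [Real.log_prod]
  · apply Finset.sum_le_sum
    intro i _
    have h1 := zcoef σ hq r hr1 x i
    have h2 : Real.log (1 - ((al σ x i).card : ℝ) * r i / (q i : ℝ)) ≤
        -(((al σ x i).card : ℝ) * r i / (q i : ℝ)) := by
      have := Real.log_le_sub_one_of_pos h1
      linarith
    split_ifs with h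
    · have h3 := NX_log (hr i).1 (hr i).2
      rw [Real.log_div (by linarith [(hr1 i).2]) h1.ne']
      linarith
    · rw [Real.log_div one_ne_zero h1.ne', Real.log_one]
      linarith
  · intro i _
    apply ne_of_gt
    apply div_pos _ (zcoef σ hq r hr1 x i)
    split_ifs
    · linarith [(hr1 i).2]
    · norm_num

/-- the logarithmic term -/
lemma logadd {a b : ℝ} (ha : 0 < a) (hb : 0 ≤ b) : Real.log ((a + b) / a) * a ≤ b := by
  have h1 : Real.log ((a + b) / a) ≤ (a + b) / a - 1 := Real.log_le_sub_one_of_pos (by positivity)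
  have h2 : ((a + b) / a - 1) * a = b := by
    field_simp
    ring
  calc Real.log ((a + b) / a) * a ≤ ((a + b) / a - 1) * a := mul_le_mul_of_nonneg_right h1 ha.le
    _ = b := h2

lemma abs_split (x : ℝ) : |x| = max x 0 + max (-x) 0 := by
  rcases le_total 0 x with h | h
  · rw [abs_of_nonneg h, max_eq_left h, max_eq_right (by linarith), add_zero]
  · rw [abs_of_nonpos h, max_eq_right h, max_eq_left (by linarith), zero_add]

/-- too few hits -/
theorem upZ (hA : S_AV) (hG : S_GEN2) (N k n : ℕ) (q : Fin N → ℕ)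
    (σ : (i : Fin N) → Fin (q i) → Option (Fin k)) (ν : Fin N → ℕ)
    (f : Xs q → ℝ) (hq : ∀ i, 2 * k ≤ q i ∧ 0 < q i) (hone : One σ) (hL : LevX ν n f) (t : ℝ) (ht : 0 < t)
    (R : Fin N → ℝ) (hR : ∀ i, 0 ≤ R i ∧ R i * (Real.cosh (ν i * t) + 1) ≤ 1 / 3) :
    ∑ x, max (f x) 0 * ∑ i, R i * Real.sinh (ν i * t) * (((al σ x i).card : ℝ) / q i -
      (1 + R i * Real.cosh (ν i * t)) * (if Hit (al σ x i) (σ i (x i)) then 1 else 0)) ≤
    n * t * ∑ x, max (f x) 0 + ∑ x, max (-f x) 0 := by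
  classical
  have hE0 : 0 ≤ ∑ x, max (f x) 0 := sum_nonneg fun x _ => le_max_right _ _
  have hF0 : 0 ≤ ∑ x, max (-f x) 0 := sum_nonneg fun x _ => le_max_right _ _
  rcases hE0.eq_or_lt with h0 | hpos
  · have h2 : ∀ x, max (f x) 0 = 0 := fun x =>
      (sum_eq_zero_iff_of_nonneg (fun x _ => le_max_right _ _)).1 h0.symm x (mem_univ _)
    rw [← h0, mul_zero, zero_add]
    refine le_trans (le_of_eq ?_) hF0
    apply sum_eq_zero
    intro x _
    rw [h2, zero_mul]
  set s : ℝ := Real.exp (-t) with hs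
  have hs0 : 0 < s := Real.exp_pos _
  -- the rates
  set a : Fin N → ℂ → ℝ := fun i z => Real.cosh (ν i * t) - (z ^ ν i).re with ha
  set ρ : ℂ → Fin N → ℝ := fun z i => R i * a i z with hρ
  have hpsi : ∀ w : ℂ, ‖w‖ = 1 → ‖psi s w‖ = 1 := (hA 0 t ht).1
  have hcont : Continuous (fun θ : ℝ => psi s (circleMap 0 1 θ)) := (hA 0 t ht).2.1
  have hρb : ∀ z : ℂ, ‖z‖ = 1 → ∀ i, 0 ≤ ρ z i ∧ ρ z i ≤ 1 / 3 := by
    intro z hz i
    have g1 : |(z ^ ν i).re| ≤ 1 := by
      refine (Complex.abs_re_le_norm _).trans ?_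
      rw [norm_pow, hz, one_pow]
    have g2 := Real.one_le_cosh (ν i * t)
    rw [abs_le] at g1
    have g3 : 0 ≤ a i z := by simp only [ha]; linarith [g1.2]
    have g4 : a i z ≤ Real.cosh (ν i * t) + 1 := by simp only [ha]; linarith [g1.1]
    exact ⟨mul_nonneg (hR i).1 g3, (mul_le_mul_of_nonneg_left g4 (hR i).1).trans (hR i).2⟩
  have hρ1 : ∀ z : ℂ, ‖z‖ = 1 → ∀ i, 0 ≤ ρ z i ∧ ρ z i < 1 := fun z hz i =>
    ⟨(hρb z hz i).1, lt_of_le_of_lt (hρb z hz i).2 (by norm_num)⟩
  -- the complex rates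
  have hrate : ∀ z : ℂ, ‖z‖ = 1 → (fun i : Fin N => (R i : ℂ) * ((Real.cosh (ν i * t) : ℝ) -
      (z ^ ν i + (z⁻¹) ^ ν i) / 2)) = fun i => ((ρ z i : ℝ) : ℂ) := by
    intro z hz
    funext i
    have hinv : z⁻¹ = (starRingEnd ℂ) z := by
      rw [Complex.inv_def, Complex.normSq_eq_norm_sq, hz]
      simp
    have e3 : (z ^ ν i + (z⁻¹) ^ ν i) / 2 = (((z ^ ν i).re : ℝ) : ℂ) := by
      rw [hinv, ← map_pow, Complex.add_conj]
      push_cast
      ring
    rw [e3]
    simp only [hρ, ha]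
    push_cast
    ring
  -- the lower bound for the density
  set α : Xs q → Fin N → ℝ := fun x i => ((al σ x i).card : ℝ) * R i / q i -
    (if Hit (al σ x i) (σ i (x i)) then R i else 0) with hα
  set β : Xs q → Fin N → ℝ := fun x i =>
    -(if Hit (al σ x i) (σ i (x i)) then R i ^ 2 else 0) with hβ
  have hLB : ∀ x w, ‖w‖ = 1 → ∑ i, (α x i * a i (psi s w) + β x i * a i (psi s w) ^ 2) ≤
      Real.log (phz σ (ρ (psi s w)) x) := by
    intro x w hw
    have hz := hpsi w hw
    refine le_trans (le_of_eq ?_) (KZ_log σ hq (ρ (psi s w)) (hρb _ hz) x)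
    apply Finset.sum_congr rfl
    intro i _
    simp only [hα, hβ, hρ]
    split_ifs <;> ring
  -- integrability
  have hac : ∀ i, Continuous (fun θ : ℝ => a i (psi s (circleMap 0 1 θ))) := by
    intro i
    exact continuous_const.sub (Complex.continuous_re.comp (hcont.pow _))
  have hai : ∀ i, CircleIntegrable (fun w => a i (psi s w)) 0 1 := fun i =>
    Continuous.intervalIntegrable (hac i) _ _
  have hai2 : ∀ i, CircleIntegrable (fun w => a i (psi s w) ^ 2) 0 1 := fun i =>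
    Continuous.intervalIntegrable ((hac i).pow 2) _ _
  have hca : ∀ i, Real.circleAverage (fun w => a i (psi s w)) 0 1 = Real.sinh (ν i * t) :=
    fun i => (hA (ν i) t ht).2.2.1
  have hca2 : ∀ i, Real.circleAverage (fun w => a i (psi s w) ^ 2) 0 1 =
      Real.sinh (ν i * t) * Real.cosh (ν i * t) := fun i => (hA (ν i) t ht).2.2.2
  have hV : ∀ x, CircleIntegrable
      (fun w => ∑ i, (α x i * a i (psi s w) + β x i * a i (psi s w) ^ 2)) 0 1 ∧
      Real.circleAverage (fun w => ∑ i, (α x i * a i (psi s w) + β x i * a i (psi s w) ^ 2)) 0 1 =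
      ∑ i, R i * Real.sinh (ν i * t) * (((al σ x i).card : ℝ) / q i -
        (1 + R i * Real.cosh (ν i * t)) * (if Hit (al σ x i) (σ i (x i)) then 1 else 0)) := by
    intro x
    have hi : ∀ i ∈ (univ : Finset (Fin N)),
        CircleIntegrable (fun w => α x i * a i (psi s w) + β x i * a i (psi s w) ^ 2) 0 1 := fun i _ =>
      (CORE_ca_lin (fun w => a i (psi s w)) (hai i) (hai2 i) (α x i) (β x i)).1
    refine ⟨?_, ?_⟩
    · have := CircleIntegrable.sum univ hi
      convert this using 1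
      funext w
      rw [Finset.sum_apply]
    rw [Real.circleAverage_fun_sum hi]
    apply Finset.sum_congr rfl
    intro i _
    rw [(CORE_ca_lin (fun w => a i (psi s w)) (hai i) (hai2 i) (α x i) (β x i)).2, hca, hca2]
    simp only [hα, hβ]
    split_ifs <;> ring
  -- the general inequality
  have key := hG (Xs q) n (fun _ => 1) f t
    (fun z x y => kz σ (fun i => (R i : ℂ) * ((Real.cosh (ν i * t) : ℝ) -
      (z ^ ν i + (z⁻¹) ^ ν i) / 2)) x y)
    (fun z x => phz σ (ρ z) x)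
    (fun x => ∑ i, R i * Real.sinh (ν i * t) * (((al σ x i).card : ℝ) / q i -
        (1 + R i * Real.cosh (ν i * t)) * (if Hit (al σ x i) (σ i (x i)) then 1 else 0)))
    (fun _ => zero_le_one) ht ?_ ?_ ?_ ?_ (by simpa only [one_mul] using hpos)
  · simp only [one_mul] at key
    refine key.trans ?_
    have h1 : ∑ x, |f x| = ∑ x, max (f x) 0 + ∑ x, max (-f x) 0 := by
      rw [← sum_add_distrib]
      apply sum_congr rfl
      intro x _
      exact abs_split _
    rw [h1, add_mul]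
    have h2 := logadd hpos hF0
    linarith
  · -- the point `s`
    intro x y
    have h0 : (fun i : Fin N => (R i : ℂ) * ((Real.cosh (ν i * t) : ℝ) -
        ((s : ℂ) ^ ν i + ((s : ℂ)⁻¹) ^ ν i) / 2)) = fun _ => 0 := by
      funext i
      have e1 : s ^ ν i = Real.exp (-(ν i * t)) := by
        rw [hs, ← Real.exp_nat_mul]
        congr 1; ring
      have e2 : (s⁻¹) ^ ν i = Real.exp (ν i * t) := by
        rw [hs, ← Real.exp_neg, ← Real.exp_nat_mul]
        congr 1; ring
      have e3 : ((s : ℂ) ^ ν i + ((s : ℂ)⁻¹) ^ ν i) / 2 = ((Real.cosh (ν i * t) : ℝ) : ℂ) := by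
        rw [Real.cosh_eq, ← e1, ← e2]
        push_cast
        ring
      rw [e3]; ring
    show kz σ (fun i : Fin N => (R i : ℂ) * ((Real.cosh (ν i * t) : ℝ) -
        ((s : ℂ) ^ ν i + ((s : ℂ)⁻¹) ^ ν i) / 2)) x y = _
    rw [h0]
    exact KZ_zero σ x y
  · -- polynomials
    intro x
    exact t_PZ N k n q σ ν f hone hL (fun i => Real.cosh (ν i * t)) R x
  · -- the adjoint
    intro z hz
    obtain ⟨k1, k2, k3⟩ := KZ_all q σ (ρ z) hq hone (hρ1 z hz)
    refine ⟨fun x => k2 x, fun y => ?_⟩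
    refine le_of_eq (Eq.trans ?_ (k3 y))
    apply Finset.sum_congr rfl
    intro x _
    show 1 * phz σ (ρ z) x * ‖kz σ (fun i : Fin N => (R i : ℂ) * ((Real.cosh (ν i * t) : ℝ) -
        (z ^ ν i + (z⁻¹) ^ ν i) / 2)) x y‖ = _
    rw [hrate z hz, KZ_cast, Complex.norm_real, Real.norm_of_nonneg (k1 x y), one_mul]
  · -- the logarithm of the density
    intro x
    have hphic : Continuous (fun θ : ℝ => phz σ (ρ (psi s (circleMap 0 1 θ))) x) := by
      unfold phz
      apply continuous_finsetProd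
      intro i _
      have hρc : Continuous (fun θ : ℝ => ρ (psi s (circleMap 0 1 θ)) i) := continuous_const.mul (hac i)
      have hne : ∀ θ : ℝ, 1 - ((al σ x i).card : ℝ) * ρ (psi s (circleMap 0 1 θ)) i / (q i : ℝ) ≠ 0 := by
        intro θ
        have hw : ‖circleMap 0 1 θ‖ = 1 := by simp
        exact (zcoef σ hq (ρ (psi s (circleMap 0 1 θ))) (hρ1 _ (hpsi _ hw)) x i).ne'
      have hsub : Continuous (fun θ : ℝ => 1 - ((al σ x i).card : ℝ) * ρ (psi s (circleMap 0 1 θ)) i / (q i : ℝ)) :=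
        continuous_const.sub ((continuous_const.mul hρc).div_const _)
      split_ifs
      · exact (continuous_const.sub hρc).div hsub hne
      · exact continuous_const.div hsub hne
    have hint : CircleIntegrable (fun w => Real.log (phz σ (ρ (psi s w)) x)) 0 1 := by
      apply Continuous.intervalIntegrable
      apply Continuous.log hphic
      intro θ
      have hw : ‖circleMap 0 1 θ‖ = 1 := by simp
      exact ((KZ_all q σ _ hq hone (hρ1 _ (hpsi _ hw))).2.1 x).ne'
    refine ⟨hint, ?_⟩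
    rw [← (hV x).2]
    apply Real.circleAverage_mono (hV x).1 hint
    intro w hw
    apply hLB x w
    rw [mem_sphere_zero_iff_norm] at hw
    rw [hw]; simp

/-- too many hits -/
theorem loZ (h : S_NX) (N k n : ℕ) (q : Fin N → ℕ) (σ : (i : Fin N) → Fin (q i) → Option (Fin k)) (ν : Fin N → ℕ)
    (f : Xs q → ℝ) (hq : ∀ i, 2 * k ≤ q i ∧ 0 < q i) (hone : One σ) (hL : LevX ν n f) (t : ℝ) (ht : 0 < t)
    (R : Fin N → ℝ) (hR : ∀ i, 0 ≤ R i ∧ R i * (Real.cosh (ν i * t) + 1) ≤ 1 / 4) :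
    ∑ x, max (f x) 0 * ∑ i, R i * Real.sinh (ν i * t) * ((if Hit (al σ x i) (σ i (x i)) then 1 else 0) -
        (1 + 8 * R i * Real.cosh (ν i * t) + 2 * k / q i) * (((al σ x i).card : ℝ) / q i)) ≤
      n * t * ∑ x, max (f x) 0 + ∑ x, max (-f x) 0 := by
  classical
  have hE0 : 0 ≤ ∑ x, max (f x) 0 := sum_nonneg fun x _ => le_max_right _ _
  have hF0 : 0 ≤ ∑ x, max (-f x) 0 := sum_nonneg fun x _ => le_max_right _ _
  rcases hE0.eq_or_lt with h0 | hpos
  · have h2 : ∀ x, max (f x) 0 = 0 := fun x =>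
      (sum_eq_zero_iff_of_nonneg (fun x _ => le_max_right _ _)).1 h0.symm x (mem_univ _)
    rw [← h0, mul_zero, zero_add]
    refine le_trans (le_of_eq ?_) hF0
    apply sum_eq_zero
    intro x _
    rw [h2, zero_mul]
  · refine (h N k n q σ ν f hq hone hL t ht R hR hpos).trans ?_
    have h1 : ∑ x, |f x| = ∑ x, max (f x) 0 + ∑ x, max (-f x) 0 := by
      rw [← sum_add_distrib]
      apply sum_congr rfl
      intro x _
      exact abs_split _
    rw [h1, add_mul]
    have h2 := logadd hpos hF0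
    linarith

end Pool.Agent.H301.SY
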