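import Pool.Agent.H301.SY.FinZ2

/-! The formula for the positive part of a real function, all windows. -/

set_option autoImplicit false

namespace Pool.Agent.H301.SY

open Finset Filter Topology
open Pool.Agent.N422.NW Pool.Agent.N422.LR Pool.Agent.N422.LG Pool.Agent.N422.SL Pool.Agent.N422.WS

lemma PP_pos (Q : ℕ) : 0 < PP Q := prod_pos fun _ hp => (mem_filter.1 hp).2.pos

/-- the mean over a period is invariant under a shift -/
lemma sum_shift {M : ℕ} (F : ℕ → ℝ) (hF : ∀ n, F (n + M) = F n) (s : ℕ) :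
    ∑ n ∈ range M, F (n + s) = ∑ n ∈ range M, F n := by
  induction s with
  | zero => simp
  | succ s ih =>
    have h1 := Finset.sum_range_succ (fun n => F (n + s)) M
    have h2 := Finset.sum_range_succ' (fun n => F (n + s)) M
    have h3 : F (M + s) = F s := by
      rw [Nat.add_comm M s]
      exact hF s
    rw [h2] at h1
    simp only [Nat.zero_add] at h1
    rw [h3, ih] at h1
    have h4 : ∑ n ∈ range M, F (n + (s + 1)) = ∑ n ∈ range M, F (n + 1 + s) := by
      apply sum_congr rfl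
      intro n _
      congr 1
      ring
    rw [h4]
    linarith

lemma mP_shift (Q : ℕ) (F : ℕ → ℝ) (hF : ∀ n, F (n + PP Q) = F n) (s : ℕ) :
    mP Q (fun n => F (n + s)) = mP Q F := by
  unfold mP
  rw [sum_shift F hF s]

lemma sq_dvd_PP {Q d : ℕ} (h : d ∈ (Icc 1 Q).filter Squarefree) : d ∣ PP Q := by
  rw [mem_filter, mem_Icc] at h
  rw [← Nat.prod_primeFactors_of_squarefree h.2]
  unfold PP
  apply prod_dvd_prod_of_subset
  intro p hp
  rw [mem_filter, mem_Icc]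
  have h1 := Nat.prime_of_mem_primeFactors hp
  have h2 := Nat.dvd_of_mem_primeFactors hp
  exact ⟨⟨h1.pos, (Nat.le_of_dvd (by omega) h2).trans h.1.2⟩, h1⟩

lemma ws_per (Q : ℕ) (c : ℕ → ℕ → ℝ) (n : ℕ) : ws Q c (n + PP Q) = ws Q c n := by
  unfold ws
  apply sum_congr rfl
  intro d hd
  obtain ⟨k, hk⟩ := sq_dvd_PP hd
  rw [hk, Nat.add_mul_mod_self_left]

/-- the shifted function -/
lemma ws_shift (Q : ℕ) (c : ℕ → ℕ → ℝ) (s n : ℕ) :
    ws Q (fun d x => c d ((x + s * (d - 1)) % d)) (n + s) = ws Q c n := by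
  unfold ws
  apply sum_congr rfl
  intro d hd
  rw [mem_filter, mem_Icc] at hd
  have h1 : ((n + s) % d + s * (d - 1)) % d = n % d := by
    rw [Nat.mod_add_mod]
    obtain ⟨e, rfl⟩ : ∃ e, d = e + 1 := ⟨d - 1, by omega⟩
    have h2 : n + s + s * (e + 1 - 1) = n + (e + 1) * s := by
      rw [Nat.add_sub_cancel]
      ring
    rw [h2, Nat.add_mul_mod_self_left]
  show c d (((n + s) % d + s * (d - 1)) % d) = c d (n % d)
  rw [h1]

/-- the block `(j u, (j + 1) u]` of the set, shifted -/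
def blk (A : ℕ → Finset ℕ) (u N j n : ℕ) : Finset ℕ :=
  (Icc 1 u).filter (fun h => j * u + h ∈ A (n + j * u * (N - 1)))

lemma blk_per (A : ℕ → Finset ℕ) (u N j : ℕ) (hA : ∀ n, A (n + N) = A n) (n : ℕ) :
    blk A u N j (n + N) = blk A u N j n := by
  unfold blk
  have h1 : n + N + j * u * (N - 1) = n + j * u * (N - 1) + N := by ring
  rw [h1, hA]

lemma blk_shift (A : ℕ → Finset ℕ) (u N j : ℕ) (hN : 0 < N) (hA : ∀ n, A (n + N) = A n) (n : ℕ) :
    blk A u N j (n + j * u) = (Icc 1 u).filter (fun h => j * u + h ∈ A n) := by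
  unfold blk
  have h1 : n + j * u + j * u * (N - 1) = n + j * u * N := by
    obtain ⟨e, rfl⟩ : ∃ e, N = e + 1 := ⟨N - 1, by omega⟩
    rw [Nat.add_sub_cancel]
    ring
  rw [h1, per_mul hA]

/-- the cardinality of the part of the set in a block -/
lemma blk_card (A : ℕ → Finset ℕ) (u N j : ℕ) (hu : 0 < u) (hN : 0 < N) (hA : ∀ n, A (n + N) = A n) (U y n : ℕ)
    (hAU : A n ⊆ Icc 1 U) :
    (blk A u N j (n + j * u) ∩ Sv u y (n + j * u)).card =
      ((A n ∩ Sv U y n).filter (fun h => (h - 1) / u = j)).card := by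
  rw [blk_shift A u N j hN hA]
  refine Finset.card_bij (fun h _ => j * u + h) ?_ ?_ ?_
  · intro h hh
    rw [mem_inter, mem_filter, mem_Icc] at hh
    obtain ⟨⟨⟨h1, h2⟩, h3⟩, h4⟩ := hh
    have h5 := mem_Icc.1 (hAU h3)
    rw [mem_filter, mem_inter]
    refine ⟨⟨h3, ?_⟩, ?_⟩
    · unfold Sv at h4 ⊢
      rw [mem_filter] at h4 ⊢
      refine ⟨mem_Icc.2 h5, fun p hp => ?_⟩
      have h6 := h4.2 p hp
      rwa [Nat.add_assoc] at h6
    · have h6 : j * u + h - 1 = h - 1 + u * j := by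
        rw [Nat.mul_comm u j]
        omega
      rw [h6, Nat.add_mul_div_left _ _ (by omega), Nat.div_eq_of_lt (by omega), Nat.zero_add]
  · intro a _ b _ hab
    exact Nat.add_left_cancel hab
  · intro h hh
    rw [mem_filter, mem_inter] at hh
    obtain ⟨⟨h1, h2⟩, h3⟩ := hh
    have h5 := mem_Icc.1 (hAU h1)
    have h6 := Nat.div_add_mod (h - 1) u
    have h7 := Nat.mod_lt (h - 1) hu
    rw [h3] at h6
    have h8 : j * u + (h - j * u) = h := by
      rw [Nat.mul_comm j u]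
      omega
    refine ⟨h - j * u, ?_, h8⟩
    rw [mem_inter, mem_filter, mem_Icc, h8]
    refine ⟨⟨⟨?_, ?_⟩, h1⟩, ?_⟩
    · rw [Nat.mul_comm j u]
      omega
    · rw [Nat.mul_comm j u]
      omega
    · unfold Sv at h2 ⊢
      rw [mem_filter] at h2 ⊢
      refine ⟨mem_Icc.2 ⟨by rw [Nat.mul_comm j u]; omega, by rw [Nat.mul_comm j u]; omega⟩, fun p hp => ?_⟩
      rw [Nat.add_assoc, h8]
      exact h2.2 p hp

/-- the sum over the blocks -/
lemma blk_sum (S : Finset ℕ) (U u : ℕ) (hS : S ⊆ Icc 1 U) :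
    (S.card : ℝ) = ∑ j ∈ range (U / u + 1), ((S.filter (fun h => (h - 1) / u = j)).card : ℝ) := by
  have h1 := Finset.card_eq_sum_card_fiberwise (s := S) (t := range (U / u + 1)) (f := fun h => (h - 1) / u) (by
    intro h hh
    have h2 := mem_Icc.1 (hS (mem_coe.1 hh))
    rw [mem_coe, mem_range]
    have h3 : (h - 1) / u ≤ U / u := Nat.div_le_div_right (by omega)
    show (h - 1) / u < U / u + 1
    omega)
  exact_mod_cast h1

lemma mP_sum (Q : ℕ) {ι : Type} (s : Finset ι) (F : ι → ℕ → ℝ) :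
    mP Q (fun n => ∑ j ∈ s, F j n) = ∑ j ∈ s, mP Q (F j) := by
  unfold mP
  rw [sum_comm, sum_div]

/-- one block -/
lemma one_blk (Q T U u j : ℕ) (hTQ : T ≤ Q) (hu : 0 < u) (c : ℕ → ℕ → ℝ) (A : ℕ → Finset ℕ)
    (hAU : ∀ n, A n ⊆ Icc 1 U) (hA : ∀ n, A (n + PP T) = A n) (y : ℕ) (hy : y ≤ Q) :
    mP Q (fun n => max (ws Q (fun d x => c d ((x + (j * u) * (d - 1)) % d)) n) 0 *
      ((blk A u (PP T) j n ∩ Sv u y n).card : ℝ)) =
    mP Q (fun n => max (ws Q c n) 0 * (((A n ∩ Sv U y n).filter (fun h => (h - 1) / u = j)).card : ℝ)) := by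
  rw [← mP_shift Q (fun n => max (ws Q (fun d x => c d ((x + (j * u) * (d - 1)) % d)) n) 0 *
      ((blk A u (PP T) j n ∩ Sv u y n).card : ℝ)) ?_ (j * u)]
  · congr 1
    ext n
    rw [ws_shift, blk_card A u (PP T) j hu (PP_pos T) hA U y n (hAU n)]
  · intro n
    rw [ws_per, per_dvd (blk_per A u (PP T) j hA) (PP_dvd hTQ) n, per_dvd (Sv_per u y) (PP_dvd hy) n]

lemma abs_blk (Q u j : ℕ) (c : ℕ → ℕ → ℝ) :
    mP Q (fun n => |ws Q (fun d x => c d ((x + (j * u) * (d - 1)) % d)) n|) = mP Q (fun n => |ws Q c n|) := by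
  rw [← mP_shift Q (fun n => |ws Q (fun d x => c d ((x + (j * u) * (d - 1)) % d)) n|) ?_ (j * u)]
  · congr 1
    ext n
    rw [ws_shift]
  · intro n
    rw [ws_per]

/-- all windows -/
theorem longZ (η : ℝ) (hη : 0 < η) : ∃ B : ℝ, ∀ᶠ t : ℝ in atTop, ∀ Q : ℕ, Real.log Q = t →
    ∀ U : ℕ, B * (t * Real.log t) ≤ U → ∀ (c : ℕ → ℕ → ℝ) (A : ℕ → Finset ℕ),
    (∀ n, A n ⊆ Icc 1 U) → (∀ n, A (n + PP ⌊t⌋₊) = A n) →
    |mP Q (fun n => max (ws Q c n) 0 * ((A n ∩ Sv U Q n).card : ℝ)) / VV Q -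
      mP Q (fun n => max (ws Q c n) 0 * ((A n ∩ Sv U ⌊t⌋₊ n).card : ℝ)) / VV ⌊t⌋₊| ≤
      η * U * mP Q (fun n => |ws Q c n|) := by
  classical
  obtain ⟨B, a, hB, ha, hs⟩ := shortZ (η / 2) (by positivity)
  refine ⟨B + 1, ?_⟩
  have hl : Tendsto Real.log atTop atTop := Real.tendsto_log_atTop
  have ev : ∀ᶠ t : ℝ in atTop, Real.log t ≤ 1 / (B + 1) * t ^ a := by
    filter_upwards [(isLittleO_log_rpow_atTop ha).bound (show (0 : ℝ) < 1 / (B + 1) by positivity),
      eventually_ge_atTop (1 : ℝ)] with t h1 h2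
    rw [Real.norm_of_nonneg (Real.log_nonneg h2), Real.norm_of_nonneg (Real.rpow_nonneg (by linarith) _)] at h1
    exact h1
  filter_upwards [hs, ev, hl.eventually_ge_atTop (1 : ℝ), eventually_ge_atTop (1 : ℝ)] with t ht1 ht2 ht3 ht4
  intro Q hQt U hU c A hAU hA
  have ht0 : 0 < t := by linarith
  set L := Real.log t with hL
  set T := ⌊t⌋₊ with hT
  set u := ⌈B * (t * L)⌉₊ with hu
  have htL1 : 1 ≤ t * L := by nlinarith
  have hBtL : 1 ≤ B * (t * L) := by nlinarith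
  have hu1 : B * (t * L) ≤ (u : ℝ) := Nat.le_ceil _
  have hu2 : (u : ℝ) < B * (t * L) + 1 := Nat.ceil_lt_add_one (by linarith)
  have hu3 : (u : ℝ) ≤ (B + 1) * (t * L) := by linarith
  have hu4 : (u : ℝ) ≤ t ^ (1 + a) := by
    have h1 : (B + 1) * (t * L) ≤ (B + 1) * (t * (1 / (B + 1) * t ^ a)) := by
      apply mul_le_mul_of_nonneg_left _ (by linarith)
      exact mul_le_mul_of_nonneg_left ht2 ht0.le
    have h2 : (B + 1) * (t * (1 / (B + 1) * t ^ a)) = t ^ (1 + a) := by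
      rw [Real.rpow_add ht0, Real.rpow_one]
      have : B + 1 ≠ 0 := by linarith
      field_simp
    linarith
  have hu0 : 0 < u := by
    have : (0 : ℝ) < u := by linarith
    exact_mod_cast this
  have hu0r : (0 : ℝ) < u := by exact_mod_cast hu0
  have huU : (u : ℝ) ≤ U := hu3.trans hU
  have hQ0 : (0 : ℝ) < Q := by
    rcases Nat.eq_zero_or_pos Q with h | h
    · rw [h, Nat.cast_zero, Real.log_zero] at hQt
      linarith
    · exact_mod_cast h
  have hTQ : T ≤ Q := by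
    have h1 : (T : ℝ) ≤ t := Nat.floor_le ht0.le
    have h2 : t ≤ Q := by
      have := Real.log_le_sub_one_of_pos hQ0
      linarith
    exact_mod_cast h1.trans h2
  set J := U / u + 1 with hJ
  have hJU : (J : ℝ) * u ≤ 2 * U := by
    have h1 : ((U / u : ℕ) : ℝ) * u ≤ U := by exact_mod_cast Nat.div_mul_le_self U u
    rw [hJ]
    push_cast
    linarith
  have hblock : ∀ y : ℕ, y ≤ Q → mP Q (fun n => max (ws Q c n) 0 * ((A n ∩ Sv U y n).card : ℝ)) =
      ∑ j ∈ range J, mP Q (fun n => max (ws Q (fun d x => c d ((x + (j * u) * (d - 1)) % d)) n) 0 *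
      ((blk A u (PP T) j n ∩ Sv u y n).card : ℝ)) := by
    intro y hy
    rw [sum_congr rfl fun j _ => one_blk Q T U u j hTQ hu0 c A hAU hA y hy, ← mP_sum]
    congr 1
    ext n
    rw [← mul_sum, ← blk_sum (A n ∩ Sv U y n) U u (inter_subset_left.trans (hAU n))]
  rw [hblock Q le_rfl, hblock T hTQ, sum_div, sum_div, ← sum_sub_distrib]
  refine (abs_sum_le_sum_abs _ _).trans ?_
  have hone : ∀ j ∈ range J, |mP Q (fun n => max (ws Q (fun d x => c d ((x + (j * u) * (d - 1)) % d)) n) 0 *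
      ((blk A u (PP T) j n ∩ Sv u Q n).card : ℝ)) / VV Q -
      mP Q (fun n => max (ws Q (fun d x => c d ((x + (j * u) * (d - 1)) % d)) n) 0 *
      ((blk A u (PP T) j n ∩ Sv u T n).card : ℝ)) / VV T| ≤ η / 2 * u * mP Q (fun n => |ws Q c n|) := by
    intro j _
    have h := ht1 Q hQt u hu1 hu4 (fun d x => c d ((x + (j * u) * (d - 1)) % d)) (blk A u (PP T) j)
      (fun n => filter_subset _ _) (blk_per A u (PP T) j hA)
    rw [abs_blk] at h
    exact h
  have hM0 : 0 ≤ mP Q (fun n => |ws Q c n|) := mP_nonneg Q fun n => abs_nonneg _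
  calc ∑ j ∈ range J, |mP Q (fun n => max (ws Q (fun d x => c d ((x + (j * u) * (d - 1)) % d)) n) 0 *
      ((blk A u (PP T) j n ∩ Sv u Q n).card : ℝ)) / VV Q -
      mP Q (fun n => max (ws Q (fun d x => c d ((x + (j * u) * (d - 1)) % d)) n) 0 *
      ((blk A u (PP T) j n ∩ Sv u T n).card : ℝ)) / VV T| ≤
        ∑ j ∈ range J, η / 2 * u * mP Q (fun n => |ws Q c n|) := sum_le_sum hone
    _ = (J * u) * (η / 2 * mP Q (fun n => |ws Q c n|)) := by
        rw [sum_const, card_range, nsmul_eq_mul]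
        ring
    _ ≤ (2 * U) * (η / 2 * mP Q (fun n => |ws Q c n|)) := by
        apply mul_le_mul_of_nonneg_right hJU
        positivity
    _ = η * U * mP Q (fun n => |ws Q c n|) := by ring

end Pool.Agent.H301.SY
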