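import Pool.Agent.H301.SY.LongZ

/-! Consequences of the formula for the positive part. -/

set_option autoImplicit false

namespace Pool.Agent.H301.SY

open Finset Filter Topology
open Pool.Agent.Y829 (HS Sf mem_HS V V_insert)
open Pool.Agent.N422.NW Pool.Agent.N422.LR Pool.Agent.N422.LG Pool.Agent.N422.SL Pool.Agent.N422.WS
open Pool.Agent.H301.SX (Sv_eq HS_mono sand2 V_split)

lemma VV_pos (y : ℕ) : 0 < VV y := MERB_pos y

/-- the relative number of survivors -/
noncomputable def rl (U z n : ℕ) : ℝ := ((Sv U z n).card : ℝ) / (U * VV z)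

lemma rl_nonneg (U z n : ℕ) : 0 ≤ rl U z n :=
  div_nonneg (Nat.cast_nonneg _) (mul_nonneg (Nat.cast_nonneg _) (VV_pos z).le)

lemma Icc_inter (U z n : ℕ) : Icc 1 U ∩ Sv U z n = Sv U z n := by
  unfold Sv
  ext a
  simp only [mem_inter, mem_filter]
  tauto

/-- the formula for the whole window -/
theorem winZ (η : ℝ) (hη : 0 < η) : ∃ B : ℝ, 1 ≤ B ∧ ∀ᶠ t : ℝ in atTop, ∀ Q : ℕ, Real.log Q = t →
    ∀ U : ℕ, B * (t * Real.log t) ≤ U → 0 < (U : ℝ) ∧ ∀ c : ℕ → ℕ → ℝ,
    |mP Q (fun n => max (ws Q c n) 0 * rl U Q n) - mP Q (fun n => max (ws Q c n) 0 * rl U ⌊t⌋₊ n)| ≤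
      η * mP Q (fun n => |ws Q c n|) := by
  obtain ⟨B, h⟩ := longZ η hη
  refine ⟨max B 1, le_max_right _ _, ?_⟩
  have hl : Tendsto Real.log atTop atTop := Real.tendsto_log_atTop
  filter_upwards [h, hl.eventually_ge_atTop (1 : ℝ), eventually_ge_atTop (1 : ℝ)] with t ht1 ht2 ht3
  intro Q hQ U hU
  have htL : 1 ≤ t * Real.log t := by nlinarith
  have hU1 : (1 : ℝ) * (t * Real.log t) ≤ U :=
    (mul_le_mul_of_nonneg_right (le_max_right B 1) (by linarith)).trans hU
  have hU0 : 0 < (U : ℝ) := by linarith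
  refine ⟨hU0, fun c => ?_⟩
  have key := ht1 Q hQ U ((mul_le_mul_of_nonneg_right (le_max_left B 1) (by linarith)).trans hU) c
    (fun _ => Icc 1 U) (fun n => Finset.Subset.refl _) (fun n => rfl)
  simp only [Icc_inter] at key
  have e1 : ∀ y : ℕ, mP Q (fun n => max (ws Q c n) 0 * rl U y n) =
      mP Q (fun n => max (ws Q c n) 0 * ((Sv U y n).card : ℝ)) / VV y / U := by
    intro y
    have h1 : ∀ n, max (ws Q c n) 0 * rl U y n = (1 / (U * VV y)) * (max (ws Q c n) 0 * ((Sv U y n).card : ℝ)) := by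
      intro n
      unfold rl
      ring
    simp only [h1]
    rw [FX_smul]
    have := VV_pos y
    field_simp
  rw [e1, e1, ← sub_div, abs_div, abs_of_pos hU0, div_le_iff₀ hU0]
  refine key.trans (le_of_eq ?_)
  ring

/-- every real function with positive mean is positive at a window which is not worse than the worst class, and at
one which is not better than the best class -/
theorem reachZ (η : ℝ) (hη : 0 < η) : ∃ B : ℝ, 1 ≤ B ∧ ∀ᶠ t : ℝ in atTop, ∀ Q : ℕ, Real.log Q = t →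
    ∀ U : ℕ, B * (t * Real.log t) ≤ U → ∀ c : ℕ → ℕ → ℝ, 0 < mQ Q (wt Q c) → ∀ κ : ℝ,
    ((∀ m, κ ≤ rl U ⌊t⌋₊ m) → ∃ n, 0 < wt Q c n ∧ κ - η ≤ rl U Q n) ∧
    ((∀ m, rl U ⌊t⌋₊ m ≤ κ) → ∃ n, 0 < wt Q c n ∧ rl U Q n ≤ κ + η) := by
  obtain ⟨B, hB, h⟩ := winZ (η / 4) (by positivity)
  refine ⟨B, hB, ?_⟩
  filter_upwards [h, eventually_ge_atTop (1 : ℝ)] with t ht1 ht2
  intro Q hQ U hU c hc κ
  have hQ1 : 1 ≤ Q := by
    rcases Nat.eq_zero_or_pos Q with h | h
    · rw [h, Nat.cast_zero, Real.log_zero] at hQ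
      linarith
    · exact h
  obtain ⟨hU0, hw⟩ := ht1 Q hQ U hU
  obtain ⟨c', h1, h2⟩ := t_SQF Q c hQ1
  have hk := hw c'
  set E := mP Q (fun n => max (ws Q c' n) 0) with hE
  set F := mP Q (fun n => max (-ws Q c' n) 0) with hF
  have hEF : mP Q (fun n => |ws Q c' n|) = E + F := by
    rw [hE, hF, ← mP_add]
    congr 1
    ext n
    exact abs_split _
  have hmean : 0 < mP Q (ws Q c') := by
    rw [h1]
    exact hc
  have hEF2 : mP Q (ws Q c') = E - F := by
    rw [hE, hF, ← mP_sub]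
    congr 1
    ext n
    rcases le_total 0 (ws Q c' n) with h | h
    · rw [max_eq_left h, max_eq_right (by linarith), sub_zero]
    · rw [max_eq_right h, max_eq_left (by linarith)]
      ring
  have hF0 : 0 ≤ F := mP_nonneg Q fun n => le_max_right _ _
  have hE0 : 0 < E := by linarith
  have hFE : F ≤ E := by linarith
  rw [hEF] at hk
  have hk2 : η / 4 * (E + F) ≤ η / 2 * E := by nlinarith
  have hconst : ∀ x : ℝ, mP Q (fun n => max (ws Q c' n) 0 * x) = x * E := by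
    intro x
    rw [hE, ← FX_smul]
    congr 1
    ext n
    ring
  have hper : ∀ z n : ℕ, z ≤ Q → rl U z (n % PP Q) = rl U z n := by
    intro z n hz
    unfold rl
    have h3 : Sv U z (n % PP Q) = Sv U z n := by
      conv_rhs => rw [← Nat.mod_add_div n (PP Q), Nat.mul_comm]
      exact (per_mul (A := Sv U z) (per_dvd (Sv_per U z) (PP_dvd hz)) _ _).symm
    rw [h3]
  have hk' := abs_le.1 (hk.trans hk2)
  constructor
  · intro hm
    by_contra hcon
    push Not at hcon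
    have hneg : ∀ n ∈ {n | κ - η ≤ rl U Q n}, ws Q c' n ≤ 0 := by
      refine h2 {n | κ - η ≤ rl U Q n} (fun n => ?_) (fun n hn => ?_)
      · simp only [Set.mem_ofPred_eq]
        rw [hper Q n le_rfl]
      · by_contra h3
        exact absurd hn (not_le.2 (hcon n (not_le.1 h3)))
    have h5 : mP Q (fun n => max (ws Q c' n) 0 * rl U Q n) ≤ (κ - η) * E := by
      rw [← hconst]
      apply FX_mono
      intro n
      rcases le_or_gt (κ - η) (rl U Q n) with h | h
      · rw [max_eq_right (hneg n h), zero_mul, zero_mul]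
      · exact mul_le_mul_of_nonneg_left h.le (le_max_right _ _)
    have h6 : κ * E ≤ mP Q (fun n => max (ws Q c' n) 0 * rl U ⌊t⌋₊ n) := by
      rw [← hconst]
      exact FX_mono Q fun n => mul_le_mul_of_nonneg_left (hm n) (le_max_right _ _)
    have h7 : 0 < η * E := by positivity
    nlinarith [hk'.1]
  · intro hm
    by_contra hcon
    push Not at hcon
    have hneg : ∀ n ∈ {n | rl U Q n ≤ κ + η}, ws Q c' n ≤ 0 := by
      refine h2 {n | rl U Q n ≤ κ + η} (fun n => ?_) (fun n hn => ?_)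
      · simp only [Set.mem_ofPred_eq]
        rw [hper Q n le_rfl]
      · by_contra h3
        exact absurd hn (not_le.2 (hcon n (not_le.1 h3)))
    have h5 : (κ + η) * E ≤ mP Q (fun n => max (ws Q c' n) 0 * rl U Q n) := by
      rw [← hconst]
      apply FX_mono
      intro n
      rcases le_or_gt (rl U Q n) (κ + η) with h | h
      · rw [max_eq_right (hneg n h), zero_mul, zero_mul]
      · exact mul_le_mul_of_nonneg_left h.le (le_max_right _ _)
    have h6 : mP Q (fun n => max (ws Q c' n) 0 * rl U ⌊t⌋₊ n) ≤ κ * E := by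
      rw [← hconst]
      exact FX_mono Q fun n => mul_le_mul_of_nonneg_left (hm n) (le_max_right _ _)
    have h7 : 0 < η * E := by positivity
    nlinarith [hk'.2]

/-- the product of the primes up to `⌊t⌋ / 2` is at most `e^t` -/
lemma PP_le (Q : ℕ) (t : ℝ) (ht : 0 ≤ t) (hQ : Real.log Q = t) (hQ1 : 1 ≤ Q) : PP (⌊t⌋₊ / 2) ≤ Q := by
  set T := ⌊t⌋₊ with hT
  have h1 : PP (T / 2) ≤ 4 ^ (T / 2) := by
    have h2 := primorial_le_four_pow (T / 2)
    unfold primorial at h2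
    have h3 : PP (T / 2) = ∏ p ∈ (range (T / 2 + 1)).filter Nat.Prime, p := by
      unfold PP
      congr 1
      ext p
      simp only [mem_filter, mem_Icc, mem_range]
      constructor
      · rintro ⟨⟨h1, h2⟩, h3⟩
        exact ⟨by omega, h3⟩
      · rintro ⟨h1, h3⟩
        exact ⟨⟨h3.pos, by omega⟩, h3⟩
    rw [h3]
    exact h2
  have h4 : 4 ^ (T / 2) ≤ 2 ^ T := by
    have : (4 : ℕ) = 2 ^ 2 := by norm_num
    rw [this, ← pow_mul]
    exact Nat.pow_le_pow_right (by norm_num) (by omega)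
  have h5 : ((2 ^ T : ℕ) : ℝ) ≤ Q := by
    push_cast
    have hQ0 : (0 : ℝ) < Q := by exact_mod_cast hQ1
    calc (2 : ℝ) ^ T ≤ Real.exp 1 ^ T := by
          apply pow_le_pow_left₀ (by norm_num)
          have := Real.add_one_le_exp (1 : ℝ)
          linarith
      _ = Real.exp T := by rw [← Real.exp_nat_mul, mul_one]
      _ ≤ Real.exp t := Real.exp_le_exp.2 (Nat.floor_le ht)
      _ = Q := by rw [← hQ, Real.exp_log hQ0]
  have h6 : 2 ^ T ≤ Q := by exact_mod_cast h5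
  exact h1.trans (h4.trans h6)

lemma PP_sq (z : ℕ) : Squarefree (PP z) := by
  unfold PP
  apply Finset.squarefree_prod_of_pairwise_isCoprime
  · intro p hp q hq hpq
    exact Nat.coprime_iff_isRelPrime.1 ((Nat.coprime_primes (mem_filter.1 hp).2 (mem_filter.1 hq).2).2 hpq)
  · intro p hp
    exact (mem_filter.1 hp).2.squarefree

/-- the class of `b` modulo the product of the primes up to `⌊t⌋ / 2` -/
noncomputable def cls (Q W b : ℕ) : Finset ℕ := (range (PP Q)).filter (fun n => n % W = b % W)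

/-- the density of the survivors of the primes up to `⌊t⌋` depends, up to `η`, on the class only -/
theorem ptZ (η : ℝ) (hη : 0 < η) : ∀ᶠ t : ℝ in atTop, ∀ U : ℕ, t * Real.log t ≤ U →
    ∀ n b : ℕ, n % PP (⌊t⌋₊ / 2) = b % PP (⌊t⌋₊ / 2) → |rl U ⌊t⌋₊ n - rl U ⌊t⌋₊ b| ≤ η := by
  obtain ⟨K, hK, hM⟩ := t_MERB2
  have hK0 : 0 < K := by linarith
  obtain ⟨σ, hσ, hs⟩ := sand2 1 le_rfl (η / K) (by positivity)
  have hl : Tendsto Real.log atTop atTop := Real.tendsto_log_atTop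
  filter_upwards [hs, hl.eventually_ge_atTop (1 : ℝ), eventually_ge_atTop (4 : ℝ)] with t ht1 ht2 ht3
  intro U hU n b hnb
  have ht0 : 0 < t := by linarith
  set L := Real.log t with hL
  have hL0 : 0 < L := by linarith
  set T := ⌊t⌋₊ with hT
  set T0 := ⌊t / 1000⌋₊ with hT0
  have hTt : (T : ℝ) ≤ t := Nat.floor_le ht0.le
  have hT2 : t < T + 1 := Nat.lt_floor_add_one t
  have hT0T : T0 ≤ T / 2 := by
    have h1 : (T0 : ℝ) ≤ t / 1000 := Nat.floor_le (by positivity)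
    have h3 : (2 : ℝ) * T0 ≤ T := by linarith
    have h4 : 2 * T0 ≤ T := by exact_mod_cast h3
    omega
  have hT22 : 2 ≤ T := by
    have : (3 : ℝ) < T + 1 := by linarith
    have h4 : 3 < T + 1 := by exact_mod_cast this
    omega
  set z := ⌈1 * t⌉₊ with hz
  have hTz : T ≤ z := by
    have h1 : 1 * t ≤ (z : ℝ) := Nat.le_ceil _
    have : (T : ℝ) ≤ z := by linarith
    exact_mod_cast this
  set PW : Finset ℕ := (Icc 1 (T / 2)).filter Nat.Prime with hPW
  have hPW1 : ∀ p ∈ PW, p.Prime ∧ (p : ℝ) ≤ t := by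
    intro p hp
    rw [hPW, mem_filter, mem_Icc] at hp
    have h1 : p ≤ T := by omega
    have h2 : (p : ℝ) ≤ T := by exact_mod_cast h1
    exact ⟨hp.2, by linarith⟩
  have hemp : ∀ q : ℕ → Prop, ∀ [DecidablePred q], (∀ p, q p → p ∉ PW) →
      (Icc 1 T0).filter (fun p => p.Prime ∧ q p) = ∅ := by
    intro q _ hq
    apply filter_false_of_mem
    rintro p hp ⟨h1, h2⟩
    apply hq p h2
    rw [hPW, mem_filter, mem_Icc]
    rw [mem_Icc] at hp
    exact ⟨⟨hp.1, hp.2.trans hT0T⟩, h1⟩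
  have hsum1 : ∑ p ∈ (Icc 1 T0).filter (fun p => p.Prime ∧ p ∉ PW), 1 / (p : ℝ) = 0 := by
    rw [hemp (fun p => p ∉ PW) (fun p h => h), sum_empty]
  have hsum2 : ∑ p ∈ (Icc 1 T0).filter (fun p => p.Prime ∧ p ∉ PW ∧ t ^ (1 / 2 : ℝ) < p), 1 / (p : ℝ) = 0 := by
    rw [hemp (fun p => p ∉ PW ∧ t ^ (1 / 2 : ℝ) < p) (fun p h => h.1), sum_empty]
  have hSf : ∀ m, Sf PW m U = ((Sv U (T / 2) m).card : ℝ) := by
    intro m
    rw [Sv_eq]
    rfl
  have hpt := ht1 U hU PW hPW1 (by rw [hsum1]; exact hσ.le) (by rw [hsum2]; positivity)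
  have hper : Sv U (T / 2) n = Sv U (T / 2) b := by
    rw [← FX_per U (T / 2) n, ← FX_per U (T / 2) b, hnb]
  have hb1 : ∀ m, ((Sv U T m).card : ℝ) ≤ ((Sv U (T / 2) m).card : ℝ) ∧
      ((Sv U (T / 2) m).card : ℝ) ≤ ((Sv U T m).card : ℝ) + η / K * (U / L) := by
    intro m
    have h1 : ((Sv U T m).card : ℝ) ≤ ((Sv U (T / 2) m).card : ℝ) := by
      exact_mod_cast card_le_card (Sv_sub (by omega) U m)
    have h2 : ((Sv U z m).card : ℝ) ≤ ((Sv U T m).card : ℝ) := by
      exact_mod_cast card_le_card (Sv_sub hTz U m)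
    have h3 := (hpt m).2
    rw [hSf] at h3
    exact ⟨h1, by linarith⟩
  have hUp : (0 : ℝ) < U := by
    have : 0 < t * L := by positivity
    linarith
  have hVT0 : 0 < VV T := MERB_pos T
  have hVT : 1 / VV T ≤ K * L := by
    have h1 := (hM T T hT22 le_rfl).2.2.1
    have hlT0 : 0 < Real.log T := by
      apply Real.log_pos
      have : (2 : ℝ) ≤ T := by exact_mod_cast hT22
      linarith
    have hlT : Real.log T ≤ L := by
      apply Real.log_le_log _ hTt
      have : (2 : ℝ) ≤ T := by exact_mod_cast hT22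
      linarith
    rw [div_le_iff₀ (by positivity)] at h1
    rw [div_le_iff₀ hVT0]
    have h3 : VV T * (K * Real.log T) ≤ VV T * (K * L) := by
      apply mul_le_mul_of_nonneg_left _ hVT0.le
      exact mul_le_mul_of_nonneg_left hlT hK0.le
    linarith
  have h1 := hb1 n
  have h2 := hb1 b
  rw [hper] at h1
  have h3 : |((Sv U T n).card : ℝ) - ((Sv U T b).card : ℝ)| ≤ η / K * (U / L) := by
    rw [abs_le]
    constructor <;> linarith
  have h4 : rl U T n - rl U T b = (((Sv U T n).card : ℝ) - ((Sv U T b).card : ℝ)) / (U * VV T) := by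
    unfold rl
    rw [sub_div]
  rw [h4, abs_div, abs_of_pos (mul_pos hUp hVT0), div_le_iff₀ (mul_pos hUp hVT0)]
  refine h3.trans ?_
  have h5 : 1 ≤ VV T * (K * L) := by
    rw [div_le_iff₀ hVT0] at hVT
    linarith
  have h6 : η / K * (U / L) * 1 ≤ η / K * (U / L) * (VV T * (K * L)) :=
    mul_le_mul_of_nonneg_left h5 (by positivity)
  have h7 : η / K * (U / L) * (VV T * (K * L)) = η * (U * VV T) := by
    field_simp
  rw [h7, mul_one] at h6
  exact h6

/-- the classes -/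
theorem classZ (η : ℝ) (hη : 0 < η) : ∃ B : ℝ, 1 ≤ B ∧ ∀ᶠ t : ℝ in atTop, ∀ Q : ℕ, Real.log Q = t →
    ∀ U : ℕ, B * (t * Real.log t) ≤ U → ∀ b : ℕ, PP (⌊t⌋₊ / 2) ≤ Q ∧
    |(∑ n ∈ cls Q (PP (⌊t⌋₊ / 2)) b, rl U Q n) / ((cls Q (PP (⌊t⌋₊ / 2)) b).card : ℝ) - rl U ⌊t⌋₊ b| ≤ η := by
  obtain ⟨B, hB, h⟩ := winZ (η / 2) (by positivity)
  refine ⟨B, hB, ?_⟩
  have hl : Tendsto Real.log atTop atTop := Real.tendsto_log_atTop
  filter_upwards [h, ptZ (η / 2) (by positivity), hl.eventually_ge_atTop (1 : ℝ), eventually_ge_atTop (4 : ℝ)]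
    with t ht1 ht2 ht3 ht4
  intro Q hQ U hU b
  have ht0 : 0 < t := by linarith
  have hQ1 : 1 ≤ Q := by
    rcases Nat.eq_zero_or_pos Q with h | h
    · rw [h, Nat.cast_zero, Real.log_zero] at hQ
      linarith
    · exact h
  have hU1 : t * Real.log t ≤ U := by
    have htL : 0 < t * Real.log t := by positivity
    nlinarith
  obtain ⟨hU0, hw⟩ := ht1 Q hQ U hU
  set W := PP (⌊t⌋₊ / 2) with hW
  have hWQ : W ≤ Q := PP_le Q t ht0.le hQ hQ1
  have hW0 : 0 < W := PP_pos _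
  refine ⟨hWQ, ?_⟩
  have hTQ : ⌊t⌋₊ / 2 ≤ Q := by
    have hQ0 : (0 : ℝ) < Q := by exact_mod_cast hQ1
    have h1 : (⌊t⌋₊ : ℝ) ≤ t := Nat.floor_le ht0.le
    have h2 : t ≤ Q := by
      have := Real.log_le_sub_one_of_pos hQ0
      linarith
    have h3 : ⌊t⌋₊ ≤ Q := by exact_mod_cast h1.trans h2
    omega
  have hWP : W ∣ PP Q := PP_dvd hTQ
  set c : ℕ → ℕ → ℝ := fun d x => if d = W ∧ x = b % W then 1 else 0 with hc
  have hws : ∀ n, ws Q c n = if n % W = b % W then 1 else 0 := by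
    intro n
    unfold ws
    have hWm : W ∈ (Icc 1 Q).filter Squarefree := by
      rw [mem_filter, mem_Icc]
      exact ⟨⟨hW0, hWQ⟩, PP_sq _⟩
    rw [sum_eq_single_of_mem W hWm]
    · simp [hc]
    · intro d _ hd
      simp [hc, hd]
  have hmax : ∀ n, max (ws Q c n) 0 = if n % W = b % W then 1 else 0 := by
    intro n
    rw [hws]
    split_ifs <;> simp
  have habs : ∀ n, |ws Q c n| = (if n % W = b % W then 1 else 0) * 1 := by
    intro n
    rw [hws]
    split_ifs <;> simp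
  have hmP : ∀ F : ℕ → ℝ, mP Q (fun n => (if n % W = b % W then 1 else 0) * F n) =
      (∑ n ∈ cls Q W b, F n) / (PP Q : ℝ) := by
    intro F
    unfold mP cls
    rw [sum_filter]
    congr 1
    apply sum_congr rfl
    intro n _
    show (if n % W = b % W then 1 else 0) * F n = if n % W = b % W then F n else 0
    by_cases h : n % W = b % W
    · rw [if_pos h, if_pos h, one_mul]
    · rw [if_neg h, if_neg h, zero_mul]
  have key := hw c
  simp only [hmax, habs] at key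
  rw [hmP, hmP, hmP] at key
  have hPQ : (0 : ℝ) < PP Q := by exact_mod_cast PP_pos Q
  rw [← sub_div, abs_div, abs_of_pos hPQ, ← mul_div_assoc, div_le_div_iff_of_pos_right hPQ, sum_const,
    nsmul_eq_mul, mul_one] at key
  have hne : b % PP Q ∈ cls Q W b := by
    unfold cls
    rw [mem_filter, mem_range]
    exact ⟨Nat.mod_lt _ (PP_pos Q), Nat.mod_mod_of_dvd b hWP⟩
  have hcard : (0 : ℝ) < ((cls Q W b).card : ℝ) := by
    exact_mod_cast card_pos.2 ⟨_, hne⟩
  set N := ((cls Q W b).card : ℝ) with hN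
  have h2 : |∑ n ∈ cls Q W b, rl U ⌊t⌋₊ n - N * rl U ⌊t⌋₊ b| ≤ N * (η / 2) := by
    have e1 : ∑ n ∈ cls Q W b, rl U ⌊t⌋₊ n - N * rl U ⌊t⌋₊ b = ∑ n ∈ cls Q W b, (rl U ⌊t⌋₊ n - rl U ⌊t⌋₊ b) := by
      rw [sum_sub_distrib, sum_const, nsmul_eq_mul]
    rw [e1]
    refine (abs_sum_le_sum_abs _ _).trans ?_
    have e2 : ∑ n ∈ cls Q W b, |rl U ⌊t⌋₊ n - rl U ⌊t⌋₊ b| ≤ ∑ n ∈ cls Q W b, η / 2 := by
      apply sum_le_sum
      intro n hn
      unfold cls at hn
      exact ht2 U hU1 n b (mem_filter.1 hn).2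
    rw [sum_const, nsmul_eq_mul] at e2
    exact e2
  have h3 : (∑ n ∈ cls Q W b, rl U Q n) / N - rl U ⌊t⌋₊ b = ((∑ n ∈ cls Q W b, rl U Q n - ∑ n ∈ cls Q W b, rl U ⌊t⌋₊ n) +
      (∑ n ∈ cls Q W b, rl U ⌊t⌋₊ n - N * rl U ⌊t⌋₊ b)) / N := by
    field_simp
    ring
  rw [h3, abs_div, abs_of_pos hcard, div_le_iff₀ hcard]
  refine (abs_add_le _ _).trans ?_
  linarith

end Pool.Agent.H301.SY
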