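import Pool.Agent.H301.SY.KZ

/-! The number of the sites not hit under the positive part of a real function of bounded level, all scales at once. -/

set_option autoImplicit false

open Finset

namespace Pool.Agent.H301.SY

open Pool.Agent.N422.NW Pool.Agent.N422.LR Pool.Agent.N422.WS
open Pool.Agent.H301.SX (Pi1 Pi1_pos tele gsum)

/-- the mean number of the sites not hit, relative to the density -/
noncomputable def MZ {N k : ℕ} {q : Fin N → ℕ} (σ : (i : Fin N) → Fin (q i) → Option (Fin k)) (g : Xs q → ℝ)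
    (i : ℕ) : ℝ :=
  ∑ u, g u * (((al σ u i).card : ℝ) / Pi1 (fun i => (q i : ℝ)) i)

lemma MZ_nonneg {N k : ℕ} {q : Fin N → ℕ} {σ : (i : Fin N) → Fin (q i) → Option (Fin k)} (hq2 : ∀ i, 2 ≤ q i)
    {g : Xs q → ℝ} (hg : ∀ u, 0 ≤ g u) (i : ℕ) : 0 ≤ MZ σ g i := by
  unfold MZ
  refine sum_nonneg fun u _ => mul_nonneg (hg u) (div_nonneg (Nat.cast_nonneg _) ?_)
  exact (Pi1_pos (fun i => by
    show (2 : ℝ) ≤ (q i : ℝ)
    exact_mod_cast hq2 i) i).le

/-- all scales at once -/
theorem seqZ (hA : S_AV) (hG2 : S_GEN2) (h2 : S_NX) (N k n : ℕ) (q : Fin N → ℕ)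
    (σ : (i : Fin N) → Fin (q i) → Option (Fin k)) (ν : Fin N → ℕ) (f : Xs q → ℝ)
    (hq : ∀ i, 2 * k ≤ q i ∧ 2 ≤ q i) (hone : One σ) (hL : LevX ν n f) (t T x J κ : ℝ) (ht : 0 < t) (hT : 0 < T)
    (hx : 0 < x) (hx1 : x ≤ 1 / 12) (hJ : ∑ i, 1 / (q i : ℝ) ≤ J) (hJx : 8 * (x * J) ≤ 1) (hκ : ∀ i, (k : ℝ) / q i ≤ κ)
    (hκ0 : 0 ≤ κ) (hν : ∀ i, 0 < ν i) (hs : ∀ i : Fin N, 1 / Pi1 (fun i => (q i : ℝ)) ((i : ℕ) + 1) ≤ T * Real.sinh (ν i * t))
    (hc : ∀ i, Real.cosh (ν i * t) ≤ 2) :
    |MZ σ (fun u => max (f u) 0) N - k * ∑ u, max (f u) 0| ≤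
      T / x * (n * t * ∑ u, max (f u) 0 + ∑ u, max (-f u) 0) +
      (2 * x + (64 * x + 8 * κ) * J) * (2 * k * ∑ u, max (f u) 0 +
        T / x * (n * t * ∑ u, max (f u) 0 + ∑ u, max (-f u) 0)) := by
  classical
  set Q : Fin N → ℝ := fun i => (q i : ℝ) with hQ
  have hQ2 : ∀ i, 2 ≤ Q i := fun i => by
    show (2 : ℝ) ≤ (q i : ℝ)
    exact_mod_cast (hq i).2
  have hQk : ∀ i, (k : ℝ) < Q i := fun i => by
    have e : k < q i := by
      have := hq i
      omega
    show (k : ℝ) < (q i : ℝ)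
    exact_mod_cast e
  have hst : ∀ i, 0 < Real.sinh (ν i * t) := fun i => by
    apply Real.sinh_pos_iff.2
    have : (0 : ℝ) < ν i := by exact_mod_cast hν i
    positivity
  have hP0 : ∀ i : ℕ, 0 < Pi1 Q i := fun i => Pi1_pos hQ2 i
  set R : Fin N → ℝ := fun i => x / T * (1 / Pi1 Q ((i : ℕ) + 1)) / Real.sinh (ν i * t) with hR
  have hR0 : ∀ i, 0 ≤ R i := fun i => by
    have a1 := hP0 ((i : ℕ) + 1)
    have a2 := hst i
    rw [hR]
    positivity
  have hRx : ∀ i, R i ≤ x := fun i => by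
    rw [hR]
    dsimp only
    rw [div_le_iff₀ (hst i)]
    calc x / T * (1 / Pi1 Q ((i : ℕ) + 1)) ≤ x / T * (T * Real.sinh (ν i * t)) :=
          mul_le_mul_of_nonneg_left (hs i) (by positivity)
      _ = x * Real.sinh (ν i * t) := by field_simp
  have hRs : ∀ i, R i * Real.sinh (ν i * t) = x / T * (1 / Pi1 Q ((i : ℕ) + 1)) := fun i => by
    rw [hR]
    exact div_mul_cancel₀ _ (hst i).ne'
  have hc1 : ∀ i, 1 ≤ Real.cosh (ν i * t) := fun i => Real.one_le_cosh _
  have hRc : ∀ i, R i * (Real.cosh (ν i * t) + 1) ≤ 1 / 4 := fun i => by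
    calc R i * (Real.cosh (ν i * t) + 1) ≤ x * 3 :=
          mul_le_mul (hRx i) (by linarith [hc i]) (by linarith [hc1 i]) hx.le
      _ ≤ 1 / 4 := by linarith
  have hRc2 : ∀ i, R i * Real.cosh (ν i * t) ≤ 2 * x := fun i => by
    calc R i * Real.cosh (ν i * t) ≤ x * 2 :=
          mul_le_mul (hRx i) (hc i) (by linarith [hc1 i]) hx.le
      _ = 2 * x := by ring
  set g : Xs q → ℝ := fun u => max (f u) 0 with hg
  have hw : ∀ u, 0 ≤ g u := fun u => le_max_right _ _
  set E : ℝ := ∑ u, g u with hE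
  set F : ℝ := n * t * E + ∑ u, max (-f u) 0 with hF
  have hE0 : 0 ≤ E := sum_nonneg fun u _ => hw u
  have hF0 : 0 ≤ F := by
    have : 0 ≤ ∑ u, max (-f u) 0 :=
      sum_nonneg fun u _ => le_max_right _ _
    positivity
  show |MZ σ g N - k * E| ≤ T / x * F + (2 * x + (64 * x + 8 * κ) * J) * (2 * k * E + T / x * F)
  set G : ℝ := T / x * F with hG
  have hG0 : 0 ≤ G := by positivity
  have hMM0 : ∀ i, 0 ≤ MZ σ g i := fun i => MZ_nonneg (fun i => (hq i).2) hw i
  have hxT : 0 < x / T := by positivity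
  have hGF : x / T * G = F := by
    rw [hG]
    field_simp
  have htel : ∀ (u : Xs q) (i : ℕ), i ≤ N → ∑ j ∈ univ.filter (fun j : Fin N => (j : ℕ) < i), 1 / Pi1 Q ((j : ℕ) + 1) *
      (((al σ u j).card : ℝ) / Q j - (if Hit (al σ u j) (σ j (u j)) then 1 else 0)) =
      ((al σ u i).card : ℝ) / Pi1 Q i - k := fun u i hi => tele hQ2 (fun i => σ i (u i)) i hi
  -- the sum of the expected hits
  have hmean : ∀ (i : ℕ) (u : Xs q), ∑ j ∈ univ.filter (fun j : Fin N => (j : ℕ) < i),
      1 / Pi1 Q ((j : ℕ) + 1) * (((al σ u j).card : ℝ) / Q j) ≤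
      ∑ j ∈ univ.filter (fun j : Fin N => (j : ℕ) < i), 2 * (1 / Q j) * (((al σ u j).card : ℝ) / Pi1 Q j) :=
    fun i u => sum_le_sum fun j _ => gsum hQ2 (fun i => σ i (u i)) j
  -- the upper bound
  have hup : ∀ i : ℕ, i ≤ N → MZ σ g i ≤ (k * (1 + 2 * x)) * E + G +
      4 * x * ∑ j ∈ univ.filter (fun j : Fin N => (j : ℕ) < i), 1 / Q j * MZ σ g j := by
    intro i hi
    have key := upZ hA hG2 N k n q σ ν f (fun i => ⟨(hq i).1, by
      have := (hq i).2
      omega⟩) hone hL t ht (fun j => if (j : ℕ) < i then R j else 0)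
      (fun j => by
        split_ifs
        · refine ⟨hR0 j, ?_⟩
          have := hRc j
          linarith
        · refine ⟨le_rfl, ?_⟩
          rw [zero_mul]
          norm_num)
    rw [← hE, ← hF] at key
    have e1 : ∀ u : Xs q, x / T * ((1 + 2 * x) * (((al σ u i).card : ℝ) / Pi1 Q i - k) -
        2 * x * (∑ j ∈ univ.filter (fun j : Fin N => (j : ℕ) < i),
          2 * (1 / Q j) * (((al σ u j).card : ℝ) / Pi1 Q j))) ≤
        ∑ j : Fin N, (if (j : ℕ) < i then R j else 0) * Real.sinh (ν j * t) * (((al σ u j).card : ℝ) / Q j -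
      (1 + (if (j : ℕ) < i then R j else 0) * Real.cosh (ν j * t)) *
        (if Hit (al σ u j) (σ j (u j)) then 1 else 0)) := by
      intro u
      have e2 : ∑ j : Fin N, (if (j : ℕ) < i then R j else 0) * Real.sinh (ν j * t) * (((al σ u j).card : ℝ) / Q j -
          (1 + (if (j : ℕ) < i then R j else 0) * Real.cosh (ν j * t)) *
          (if Hit (al σ u j) (σ j (u j)) then (1 : ℝ) else 0)) =
          ∑ j ∈ univ.filter (fun j : Fin N => (j : ℕ) < i), (x / T * (1 / Pi1 Q ((j : ℕ) + 1))) *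
          (((al σ u j).card : ℝ) / Q j - (1 + R j * Real.cosh (ν j * t)) *
          (if Hit (al σ u j) (σ j (u j)) then (1 : ℝ) else 0)) := by
        rw [sum_filter]
        apply sum_congr rfl
        intro j _
        by_cases hji : (j : ℕ) < i
        · rw [if_pos hji, if_pos hji, ← hRs j]
        · rw [if_neg hji, if_neg hji]
          ring
      rw [e2]
      have e3 : ∑ j ∈ univ.filter (fun j : Fin N => (j : ℕ) < i), (x / T * (1 / Pi1 Q ((j : ℕ) + 1))) *
          (((al σ u j).card : ℝ) / Q j - (1 + 2 * x) * (if Hit (al σ u j) (σ j (u j)) then (1 : ℝ) else 0)) ≤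
          ∑ j ∈ univ.filter (fun j : Fin N => (j : ℕ) < i), (x / T * (1 / Pi1 Q ((j : ℕ) + 1))) *
          (((al σ u j).card : ℝ) / Q j - (1 + R j * Real.cosh (ν j * t)) *
          (if Hit (al σ u j) (σ j (u j)) then (1 : ℝ) else 0)) := by
        apply sum_le_sum
        intro j _
        apply mul_le_mul_of_nonneg_left
        · have e4 : (1 + R j * Real.cosh (ν j * t)) * (if Hit (al σ u j) (σ j (u j)) then (1 : ℝ) else 0) ≤
              (1 + 2 * x) * (if Hit (al σ u j) (σ j (u j)) then (1 : ℝ) else 0) := by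
            apply mul_le_mul_of_nonneg_right
            · have := hRc2 j
              linarith
            · split_ifs <;> norm_num
          linarith
        · have := hP0 ((j : ℕ) + 1)
          positivity
      refine le_trans ?_ e3
      have e5 : ∑ j ∈ univ.filter (fun j : Fin N => (j : ℕ) < i), (x / T * (1 / Pi1 Q ((j : ℕ) + 1))) *
          (((al σ u j).card : ℝ) / Q j - (1 + 2 * x) * (if Hit (al σ u j) (σ j (u j)) then (1 : ℝ) else 0)) =
          x / T * ((1 + 2 * x) * (∑ j ∈ univ.filter (fun j : Fin N => (j : ℕ) < i), 1 / Pi1 Q ((j : ℕ) + 1) *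
            (((al σ u j).card : ℝ) / Q j - (if Hit (al σ u j) (σ j (u j)) then (1 : ℝ) else 0))) -
          2 * x * ∑ j ∈ univ.filter (fun j : Fin N => (j : ℕ) < i), 1 / Pi1 Q ((j : ℕ) + 1) *
            (((al σ u j).card : ℝ) / Q j)) := by
        rw [mul_sum, mul_sum, ← sum_sub_distrib, mul_sum]
        apply sum_congr rfl
        intro j _
        ring
      rw [e5, htel u i hi]
      apply mul_le_mul_of_nonneg_left _ hxT.le
      have e6 := mul_le_mul_of_nonneg_left (hmean i u) (show 0 ≤ 2 * x by positivity)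
      linarith
    have e7 := (sum_le_sum fun u (_ : u ∈ univ) => mul_le_mul_of_nonneg_left (e1 u) (hw u)).trans key
    have e8 : ∑ u, g u * (x / T * ((1 + 2 * x) * (((al σ u i).card : ℝ) / Pi1 Q i - k) -
        2 * x * (∑ j ∈ univ.filter (fun j : Fin N => (j : ℕ) < i),
          2 * (1 / Q j) * (((al σ u j).card : ℝ) / Pi1 Q j)))) =
        x / T * ((1 + 2 * x) * (MZ σ g i - k * E) - 2 * x *
          ∑ j ∈ univ.filter (fun j : Fin N => (j : ℕ) < i), 2 * (1 / Q j) * MZ σ g j) := by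
      unfold MZ
      have e9 : ∑ j ∈ univ.filter (fun j : Fin N => (j : ℕ) < i), 2 * (1 / Q j) *
          ∑ u, g u * (((al σ u j).card : ℝ) / Pi1 Q j) =
          ∑ u, g u * ∑ j ∈ univ.filter (fun j : Fin N => (j : ℕ) < i),
            2 * (1 / Q j) * (((al σ u j).card : ℝ) / Pi1 Q j) := by
        simp only [mul_sum]
        rw [sum_comm]
        apply sum_congr rfl
        intro u _
        apply sum_congr rfl
        intro j _
        ring
      rw [e9, hE, mul_sum, ← sum_sub_distrib, mul_sum, mul_sum, ← sum_sub_distrib, mul_sum]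
      apply sum_congr rfl
      intro u _
      ring
    rw [e8] at e7
    have e10 : (1 + 2 * x) * (MZ σ g i - k * E) - 2 * x *
          ∑ j ∈ univ.filter (fun j : Fin N => (j : ℕ) < i), 2 * (1 / Q j) * MZ σ g j ≤ G := by
      rw [← hGF] at e7
      exact le_of_mul_le_mul_left e7 hxT
    have e12 : ∑ j ∈ univ.filter (fun j : Fin N => (j : ℕ) < i), 2 * (1 / Q j) * MZ σ g j =
        2 * ∑ j ∈ univ.filter (fun j : Fin N => (j : ℕ) < i), 1 / Q j * MZ σ g j := by
      rw [mul_sum]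
      apply sum_congr rfl
      intro j _
      ring
    rw [e12] at e10
    have e13 := hMM0 i
    nlinarith
  set B0 : ℝ := k * (1 + 2 * x) * E + G with hB0
  have hB00 : 0 ≤ B0 := by positivity
  have hsumJ : ∀ i : ℕ, ∀ B : ℝ, 0 ≤ B → (∀ j : Fin N, (j : ℕ) < i → MZ σ g j ≤ B) →
      ∑ j ∈ univ.filter (fun j : Fin N => (j : ℕ) < i), 1 / Q j * MZ σ g j ≤ J * B := by
    intro i B hB hj
    calc ∑ j ∈ univ.filter (fun j : Fin N => (j : ℕ) < i), 1 / Q j * MZ σ g j ≤
          ∑ j ∈ univ.filter (fun j : Fin N => (j : ℕ) < i), 1 / Q j * B := by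
          apply sum_le_sum
          intro j hj2
          have a1 := hQ2 j
          exact mul_le_mul_of_nonneg_left (hj j (mem_filter.1 hj2).2) (by positivity)
      _ ≤ ∑ j : Fin N, 1 / Q j * B := by
          apply sum_le_sum_of_subset_of_nonneg (filter_subset _ _)
          intro j _ _
          have a1 := hQ2 j
          positivity
      _ = (∑ j : Fin N, 1 / Q j) * B := by rw [sum_mul]
      _ ≤ J * B := mul_le_mul_of_nonneg_right hJ hB
  have hall : ∀ i : ℕ, i ≤ N → MZ σ g i ≤ 2 * B0 := by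
    intro i
    induction i using Nat.strong_induction_on with
    | _ i ih =>
      intro hi
      have a1 := hup i hi
      have a2 := hsumJ i (2 * B0) (by positivity) (fun j hj => ih j hj (by omega))
      have a3 : 4 * x * (J * (2 * B0)) = 8 * (x * J) * B0 := by ring
      have a4 : 8 * (x * J) * B0 ≤ 1 * B0 := mul_le_mul_of_nonneg_right hJx (by positivity)
      have a5 := mul_le_mul_of_nonneg_left a2 (show 0 ≤ 4 * x by positivity)
      linarith
  have hJ0 : 0 ≤ J := le_trans (sum_nonneg fun i _ => by positivity) hJ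
  have hSJ := hsumJ N (2 * B0) (by positivity) (fun j _ => hall j j.2.le)
  have hkE : (0 : ℝ) ≤ k * E := by positivity
  have hB0le : B0 ≤ 2 * k * E + G := by
    rw [hB0]
    nlinarith
  have hkG : (0 : ℝ) ≤ 2 * k * E + G := by positivity
  have hfN : univ.filter (fun j : Fin N => (j : ℕ) < N) = univ := filter_true_of_mem fun j _ => j.2
  rw [hfN] at hSJ
  have hupN := hup N le_rfl
  rw [hfN] at hupN
  -- the lower bound
  have key := loZ h2 N k n q σ ν f (fun i => ⟨(hq i).1, by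
    have := (hq i).2
    omega⟩) hone hL t ht R (fun i => ⟨hR0 i, hRc i⟩)
  have hkey : ∑ u, g u * ∑ i, R i * Real.sinh (ν i * t) *
      ((if Hit (al σ u i) (σ i (u i)) then 1 else 0) -
        (1 + 8 * R i * Real.cosh (ν i * t) + 2 * k / q i) * (((al σ u i).card : ℝ) / q i)) ≤ F := key
  have e1 : ∀ u : Xs q, x / T * ((k - ((al σ u N).card : ℝ) / Pi1 Q N) -
        (16 * x + 2 * κ) * (∑ j : Fin N, 2 * (1 / Q j) * (((al σ u j).card : ℝ) / Pi1 Q j))) ≤
        ∑ i, R i * Real.sinh (ν i * t) * ((if Hit (al σ u i) (σ i (u i)) then 1 else 0) -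
        (1 + 8 * R i * Real.cosh (ν i * t) + 2 * k / q i) * (((al σ u i).card : ℝ) / q i)) := by
    intro u
    have e3 : ∑ j : Fin N, (x / T * (1 / Pi1 Q ((j : ℕ) + 1))) *
          ((if Hit (al σ u j) (σ j (u j)) then (1 : ℝ) else 0) - (1 + (16 * x + 2 * κ)) * (((al σ u j).card : ℝ) / Q j)) ≤
        ∑ i, R i * Real.sinh (ν i * t) * ((if Hit (al σ u i) (σ i (u i)) then 1 else 0) -
        (1 + 8 * R i * Real.cosh (ν i * t) + 2 * k / q i) * (((al σ u i).card : ℝ) / q i)) := by
      apply sum_le_sum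
      intro j _
      rw [hRs j]
      apply mul_le_mul_of_nonneg_left
      · have e4 : (1 + 8 * R j * Real.cosh (ν j * t) + 2 * k / q j) * (((al σ u j).card : ℝ) / q j) ≤
            (1 + (16 * x + 2 * κ)) * (((al σ u j).card : ℝ) / Q j) := by
          apply mul_le_mul_of_nonneg_right
          · have b1 := hRc2 j
            have b2 := hκ j
            have b3 : 2 * (k : ℝ) / q j = 2 * (k / q j) := by ring
            rw [b3]
            linarith
          · positivity
        linarith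
      · have := hP0 ((j : ℕ) + 1)
        positivity
    refine le_trans ?_ e3
    have e5 : ∑ j : Fin N, (x / T * (1 / Pi1 Q ((j : ℕ) + 1))) *
          ((if Hit (al σ u j) (σ j (u j)) then (1 : ℝ) else 0) - (1 + (16 * x + 2 * κ)) * (((al σ u j).card : ℝ) / Q j)) =
          x / T * (-(∑ j : Fin N, 1 / Pi1 Q ((j : ℕ) + 1) *
            (((al σ u j).card : ℝ) / Q j - (if Hit (al σ u j) (σ j (u j)) then (1 : ℝ) else 0))) -
          (16 * x + 2 * κ) * ∑ j : Fin N, 1 / Pi1 Q ((j : ℕ) + 1) * (((al σ u j).card : ℝ) / Q j)) := by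
      rw [mul_sum, ← sum_neg_distrib, ← sum_sub_distrib, mul_sum]
      apply sum_congr rfl
      intro j _
      ring
    have e6 := htel u N le_rfl
    rw [hfN] at e6
    rw [e5, e6]
    apply mul_le_mul_of_nonneg_left _ hxT.le
    have e7 := hmean N u
    rw [hfN] at e7
    have e8 := mul_le_mul_of_nonneg_left e7 (show 0 ≤ 16 * x + 2 * κ by positivity)
    linarith
  have e7 := (sum_le_sum fun u (_ : u ∈ univ) => mul_le_mul_of_nonneg_left (e1 u) (hw u)).trans hkey
  have e8 : ∑ u, g u * (x / T * ((k - ((al σ u N).card : ℝ) / Pi1 Q N) -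
        (16 * x + 2 * κ) * (∑ j : Fin N, 2 * (1 / Q j) * (((al σ u j).card : ℝ) / Pi1 Q j)))) =
      x / T * ((k * E - MZ σ g N) - (16 * x + 2 * κ) * (2 * ∑ j : Fin N, 1 / Q j * MZ σ g j)) := by
    have e9 : 2 * ∑ j : Fin N, 1 / Q j * MZ σ g j =
        ∑ u, g u * ∑ j : Fin N, 2 * (1 / Q j) * (((al σ u j).card : ℝ) / Pi1 Q j) := by
      unfold MZ
      simp only [mul_sum]
      rw [sum_comm]
      apply sum_congr rfl
      intro u _
      apply sum_congr rfl
      intro j _
      ring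
    rw [e9]
    unfold MZ
    rw [hE, mul_sum, ← sum_sub_distrib, mul_sum, ← sum_sub_distrib, mul_sum]
    apply sum_congr rfl
    intro u _
    ring
  rw [e8] at e7
  have e10 : (k * E - MZ σ g N) - (16 * x + 2 * κ) * (2 * ∑ j : Fin N, 1 / Q j * MZ σ g j) ≤ G := by
    rw [← hGF] at e7
    exact le_of_mul_le_mul_left e7 hxT
  -- conclusion
  have f1 : J * (2 * B0) ≤ J * (2 * (2 * k * E + G)) := by
    apply mul_le_mul_of_nonneg_left _ hJ0
    linarith
  have f2 := hSJ.trans f1
  have f3 : 4 * x * ∑ j : Fin N, 1 / Q j * MZ σ g j ≤ 4 * x * (J * (2 * (2 * k * E + G))) :=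
    mul_le_mul_of_nonneg_left f2 (by positivity)
  have f4 : (16 * x + 2 * κ) * (2 * ∑ j : Fin N, 1 / Q j * MZ σ g j) ≤
      (16 * x + 2 * κ) * (2 * (J * (2 * (2 * k * E + G)))) :=
    mul_le_mul_of_nonneg_left (by linarith) (by positivity)
  have f5 : 0 ≤ κ * J * (2 * k * E + G) := by positivity
  have f6 : 0 ≤ x * J * (2 * k * E + G) := by positivity
  have f7 : 0 ≤ x * (k * E) := by positivity
  have f8 : 0 ≤ x * G := by positivity
  have f9 : 0 ≤ x * (2 * k * E + G) := by positivity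
  rw [abs_le]
  constructor
  · have g1 : G + (2 * x + (64 * x + 8 * κ) * J) * (2 * k * E + G) = G +
        (16 * x + 2 * κ) * (2 * (J * (2 * (2 * k * E + G)))) + 2 * (x * (2 * k * E + G)) := by ring
    rw [g1]
    linarith
  · have g1 : G + (2 * x + (64 * x + 8 * κ) * J) * (2 * k * E + G) = G + 2 * (x * (2 * k * E + G)) +
        4 * x * (J * (2 * (2 * k * E + G))) + 56 * (x * J * (2 * k * E + G)) + 8 * (κ * J * (2 * k * E + G)) := by ring
    rw [g1]
    have g2 : k * (1 + 2 * x) * E + G = k * E + 2 * (x * (k * E)) + G := by ring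
    have g3 : 2 * (x * (2 * k * E + G)) = 4 * (x * (k * E)) + 2 * (x * G) := by ring
    rw [hB0, g2] at hupN
    rw [g3]
    linarith

end Pool.Agent.H301.SY
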